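import Pool.Agent.P.MP_ed1e41_co.AS.Iface3

/-! Counting tools for large ground sets. -/

namespace Pool.Agent.P.MP_ed1e41_co.XL

open Finset Pool.Agent.P.MP_ed1e41_co.AS
open scoped Classical

/-- Double counting of deletions inside `D`. -/
lemma dcl (𝒜 𝒮 : Finset (Finset ℕ)) (D : Finset ℕ) (a : ℕ)
    (h1 : ∀ W ∈ 𝒜, a ≤ (W ∩ D).card) (h2 : ∀ W ∈ 𝒜, ∀ z ∈ W, z ∈ D → W.erase z ∈ 𝒮) :
    𝒜.card * a ≤ 𝒮.card * (D.card + 1 - a) := by
  refine card_mul_le_card_mul (fun W G => ∃ z ∈ W, z ∈ D ∧ W.erase z = G) (fun W hW => ?_)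
    (fun G _ => ?_)
  · refine (h1 W hW).trans (card_le_card_of_injOn (fun z => W.erase z) (fun z hz => ?_)
      fun z hz z' _ e => ?_)
    · obtain ⟨z1, z2⟩ := mem_inter.1 (mem_coe.1 hz)
      exact mem_coe.2 ((mem_bipartiteAbove _).2 ⟨h2 W hW z z1 z2, z, z1, z2, rfl⟩)
    · exact (erase_inj W (mem_inter.1 (mem_coe.1 hz)).1).1 e
  · rcases (𝒜.bipartiteBelow (fun W G => ∃ z ∈ W, z ∈ D ∧ W.erase z = G) G).eq_empty_or_nonempty
      with e | ⟨W, hW⟩
    · rw [e, card_empty]; exact Nat.zero_le _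
    · obtain ⟨hW1, z, z1, z2, rfl⟩ := (mem_bipartiteBelow _).1 hW
      have a1 := h1 W hW1
      have a2 : (W.erase z ∩ D).card + 1 = (W ∩ D).card := by
        rw [erase_inter, card_erase_add_one (mem_inter.2 ⟨z1, z2⟩)]
      have a3 := card_sdiff_add_card_inter D (W.erase z)
      rw [inter_comm] at a3
      refine le_trans (card_le_card (t := (D \ W.erase z).image fun y => insert y (W.erase z))
        fun W' hW' => ?_) (card_image_le.trans (by omega))
      obtain ⟨-, y, y1, y2, e⟩ := (mem_bipartiteBelow _).1 hW'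
      exact mem_image.2 ⟨y, mem_sdiff.2 ⟨y2, e ▸ notMem_erase _ _⟩, by rw [← e, insert_erase y1]⟩

/-- Pushing the points below `a` to the left. -/
lemma left_mem {𝓕 : Finset (Finset ℕ)} (hs : Shifted 𝓕) (a r : ℕ) :
    ∀ x, ∀ W ∈ 𝓕, (W ∩ range a).card = r → (range r \ W).card = x → range r ∪ W \ range a ∈ 𝓕 := by
  intro x
  induction x with
  | zero =>
    intro W hW hr hx
    rw [card_eq_zero, sdiff_eq_empty_iff_subset] at hx
    have h1 := card_tr_le W a
    have h2 : range r = W ∩ range a := eq_of_subset_of_card_le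
      (subset_inter hx (range_subset_range.2 (by omega))) (by rw [card_range, hr])
    rwa [h2, union_comm, sdiff_union_inter]
  | succ x ih =>
    intro W hW hr hx
    have h1 := card_tr_le W a
    obtain ⟨u, hu⟩ := card_pos.1 (show 0 < (range r \ W).card by omega)
    obtain ⟨u1, u2⟩ := mem_sdiff.1 hu
    obtain ⟨y, y1, y2⟩ : ∃ y ∈ W ∩ range a, y ∉ range r := by
      by_contra hn
      push Not at hn
      have := eq_of_subset_of_card_le (show W ∩ range a ⊆ range r from hn)
        (by rw [card_range, hr])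
      exact u2 (mem_inter.1 (this ▸ u1)).1
    obtain ⟨y3, y4⟩ := mem_inter.1 y1
    rw [mem_range] at u1 y2 y4
    have h2 := ih _ (hs W hW u y (by omega) y3 u2) ?_ ?_
    · convert h2 using 2
      ext z
      simp only [mem_sdiff, mem_insert, mem_erase, mem_range]
      grind
    · have b1 : u ∈ range a := mem_range.2 (by omega)
      have b2 : u ∉ W.erase y ∩ range a := fun h => u2 (mem_of_mem_erase (mem_inter.1 h).1)
      have b3 := card_erase_tr y3 y4
      rw [insert_inter_of_mem b1, card_insert_of_notMem b2]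
      omega
    · have : range r \ insert u (W.erase y) = (range r \ W).erase u := by
        ext z
        simp only [mem_sdiff, mem_insert, mem_erase, mem_range]
        grind
      rw [this, card_erase_of_mem hu, hx]
      rfl

lemma tr_step (W : Finset ℕ) {p p' : ℕ} (h : p ≤ p') :
    (W ∩ range p').card + p ≤ (W ∩ range p).card + p' := by
  obtain ⟨x, rfl⟩ := Nat.exists_eq_add_of_le h
  have h1 := card_tr_split W p x
  have h2 := card_le_card (inter_subset_right (s₁ := W) (s₂ := Ico p (p + x)))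
  rw [Nat.card_Ico] at h2
  omega

/-- A member with `i` holes below `a` and no points in the window. -/
lemma far {n t d m i a : ℕ} {𝓕 : Finset (Finset ℕ)} (h : Adm n (t + d) t m 𝓕) (hs : Shifted 𝓕)
    {Y : Finset ℕ} (hY : Y ∈ 𝓕) (h1 : (Y ∩ range (t + 2 * d)).card ≤ t + i)
    (h2 : (Y ∩ range a).card + i ≤ a) {W : Finset ℕ} (hW : W ∈ 𝓕) :
    t ≤ (W ∩ range (a - i)).card ∨ t + i ≤ (W ∩ range (t + 2 * i)).card := by
  have h3 := left_mem hs a _ _ Y hY rfl rfl
  set r := (Y ∩ range a).card with hr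
  obtain ⟨p, hp⟩ := frankl_lemma hs h.2.1 h3 W hW
  have c1 := card_tr_le' (range r ∪ Y \ range a) p
  have c2 := card_tr_le' W p
  rw [h.card_eq _ h3] at c1
  rw [h.card_eq _ hW] at c2
  have c3 := card_tr_le (range r ∪ Y \ range a) p
  rcases le_total p a with e | e
  · have b1 : ((range r ∪ Y \ range a) ∩ range p).card ≤ r := by
      refine le_trans (card_le_card fun z => ?_) (card_range r).le
      simp only [mem_inter, mem_union, mem_sdiff, mem_range]
      grind
    left
    rcases le_total p (a - i) with e' | e'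
    · have := card_tr_mono W e'
      omega
    · have := tr_step W e'
      omega
  · right
    obtain ⟨x, rfl⟩ := Nat.exists_eq_add_of_le e
    have b1 : ((range r ∪ Y \ range a) ∩ range (a + x)).card ≤ (Y ∩ range (a + x)).card := by
      rw [card_tr_split Y, ← hr]
      refine le_trans (card_le_card (t := range r ∪ Y ∩ Ico a (a + x)) fun z => ?_)
        ((card_union_le _ _).trans (by rw [card_range]))
      simp only [mem_inter, mem_union, mem_sdiff, mem_range, mem_Ico]
      grind
    have b2 := tr_step Y e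
    rcases le_total (a + x) (t + 2 * i) with e' | e'
    · have := card_tr_mono W e'
      omega
    · have b3 := tr_step W e'
      have b4 := card_tr_mono Y (show a + x ≤ t + 2 * d by omega)
      omega

lemma big_le {n k w c : ℕ} (hw : w ≤ n) (hn : 1 ≤ n) :
    (Hull.big n k w c).card ≤ (k + 1) * 2 ^ w * n ^ (k - c) := by
  obtain ⟨q, hq⟩ := Nat.exists_eq_add_of_le hw
  rw [card_big hq, mul_assoc]
  refine (sum_le_card_nsmul _ _ (2 ^ w * n ^ (k - c)) fun x hx => ?_).trans ?_
  · rw [mem_Icc] at hx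
    exact Nat.mul_le_mul (Nat.choose_le_two_pow _ _) ((Nat.choose_le_pow _ _).trans
      ((Nat.pow_le_pow_left (by omega) _).trans (Nat.pow_le_pow_right hn (by omega))))
  · rw [Nat.card_Icc, smul_eq_mul]
    exact Nat.mul_le_mul_right _ (by omega)

lemma asy (L w r : ℕ) : ∃ n₀, ∀ n, n₀ ≤ n → ∀ y, n ≤ w * y → L * n ^ r ≤ y.choose (r + 1) := by
  refine ⟨2 * w * r + L * ((2 * w) ^ (r + 1) * (r + 1).factorial) + 1, fun n hn y hy => ?_⟩
  have w0 : 0 < w := Nat.pos_of_ne_zero (by rintro rfl; omega)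
  have h0 : w * (2 * r) = 2 * w * r := by ring
  have h1 : 2 * r ≤ y := Nat.le_of_mul_le_mul_left (c := w) (by omega) w0
  have h2 : n ≤ 2 * w * (y - r) := by
    have : w * y ≤ w * (2 * (y - r)) := Nat.mul_le_mul_left _ (by omega)
    nlinarith
  have h3 := Nat.pow_sub_le_descFactorial y (r + 1)
  rw [Nat.descFactorial_eq_factorial_mul_choose, show y + 1 - (r + 1) = y - r by omega] at h3
  have h4 := Nat.pow_le_pow_left h2 (r + 1)
  rw [mul_pow (2 * w)] at h4
  refine Nat.le_of_mul_le_mul_left (c := (2 * w) ^ (r + 1) * (r + 1).factorial) ?_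
    (Nat.mul_pos (by positivity) (Nat.factorial_pos _))
  calc _ = L * ((2 * w) ^ (r + 1) * (r + 1).factorial) * n ^ r := by ring
    _ ≤ n * n ^ r := Nat.mul_le_mul_right _ (by omega)
    _ = n ^ (r + 1) := by ring
    _ ≤ (2 * w) ^ (r + 1) * ((r + 1).factorial * y.choose (r + 1)) :=
      h4.trans (Nat.mul_le_mul_left _ h3)
    _ = _ := by ring

lemma frankl_le_pow (n k t j : ℕ) : (frankl n k t j).card ≤ 2 ^ n :=
  (card_filter_le _ _).trans (by rw [card_powersetCard, card_range]; exact Nat.choose_le_two_pow _ _)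

/-- Members of class `j + 1` that lie in the Frankl family of index `j`. -/
lemma two {t d j : ℕ} {𝓕 𝒞 𝒮 : Finset (Finset ℕ)} (h1 : 𝒞 ⊆ cls t d (j + 1) 𝓕)
    (h2 : ∀ W ∈ 𝒞, t + j ≤ (W ∩ range (t + 2 * j)).card)
    (hh : ∀ W ∈ 𝒞, ∀ z ∈ W, z < t + 2 * (j + 1) → W.erase z ∈ 𝒮) :
    (2 * (t + j) + 1) * 𝒞.card ≤ 2 * (j + 1) * 𝒮.card := by
  have a0 := card_filter_add_card_filter_not (s := 𝒞)
    fun W => t + j + 1 ≤ (W ∩ range (t + 2 * j)).card
  have a1 := card_filter_add_card_filter_not (s := 𝒮)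
    fun G => t + j ≤ (G ∩ range (t + 2 * j)).card
  have b1 := dcl (𝒞.filter fun W => t + j + 1 ≤ (W ∩ range (t + 2 * j)).card)
    (𝒮.filter fun G => t + j ≤ (G ∩ range (t + 2 * j)).card)
    (range (t + 2 * j)) (t + j + 1) (fun W hW => (mem_filter.1 hW).2) fun W hW z hz h => by
      rw [mem_range] at h
      have := card_erase_tr hz h
      have := (mem_filter.1 hW).2
      exact mem_filter.2 ⟨hh W (mem_filter.1 hW).1 z hz (by omega), by omega⟩
  have b2 := dcl (𝒞.filter fun W => ¬ t + j + 1 ≤ (W ∩ range (t + 2 * j)).card)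
    (𝒮.filter fun G => ¬ t + j ≤ (G ∩ range (t + 2 * j)).card)
    (range (t + 2 * j)) (t + j) (fun W hW => h2 W (mem_filter.1 hW).1) fun W hW z hz h => by
      rw [mem_range] at h
      have := card_erase_tr hz h
      have := (mem_filter.1 hW).2
      exact mem_filter.2 ⟨hh W (mem_filter.1 hW).1 z hz (by omega), by omega⟩
  have b3 := dcl (𝒞.filter fun W => ¬ t + j + 1 ≤ (W ∩ range (t + 2 * j)).card)
    (𝒮.filter fun G => t + j ≤ (G ∩ range (t + 2 * j)).card)
    (Ico (t + 2 * j) (t + 2 * j + 2)) 1 (fun W hW => by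
      have c1 := (mem_filter.1 hW).2
      have c2 := (mem_cls.1 (h1 (mem_filter.1 hW).1)).2.2.1
      have c3 := card_tr_split W (t + 2 * j) 2
      rw [show t + 2 * (j + 1) = t + 2 * j + 2 by ring] at c2
      omega) fun W hW z hz h => by
      rw [mem_Ico] at h
      refine mem_filter.2 ⟨hh W (mem_filter.1 hW).1 z hz (by omega), ?_⟩
      rw [erase_inter, erase_eq_of_notMem fun h' => by
        have := mem_range.1 (mem_inter.1 h').2
        omega]
      exact h2 W (mem_filter.1 hW).1
  rw [card_range, show t + 2 * j + 1 - (t + j + 1) = j by omega] at b1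
  rw [card_range, show t + 2 * j + 1 - (t + j) = j + 1 by omega] at b2
  rw [Nat.card_Ico, show t + 2 * j + 2 - (t + 2 * j) + 1 - 1 = 2 by omega] at b3
  rw [← a0, ← a1]
  nlinarith

/-- Members of a union of Frankl families have many neighbours below. -/
lemma walk_pay (t r : ℕ) : ∀ 𝒜 𝒮 : Finset (Finset ℕ),
    (∀ W ∈ 𝒜, ∃ c, c < r ∧ t + 1 + c ≤ (W ∩ range (t + 1 + 2 * c)).card) →
    (∀ W ∈ 𝒜, ∀ z ∈ W, z < t + 1 + 2 * r → W.erase z ∈ 𝒮) → 𝒜.card * (t + r) ≤ 𝒮.card * r := by
  induction r with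
  | zero =>
    intro 𝒜 𝒮 h1 _
    rw [eq_empty_of_forall_notMem (s := 𝒜) fun W hW => by
      obtain ⟨c, h, -⟩ := h1 W hW
      omega, card_empty, zero_mul]
    exact Nat.zero_le _
  | succ r ih =>
    intro 𝒜 𝒮 h1 h2
    have a0 := card_filter_add_card_filter_not (s := 𝒜)
      fun W => t + 1 + r ≤ (W ∩ range (t + 1 + 2 * r)).card
    have a1 := card_filter_add_card_filter_not (s := 𝒮)
      fun G => t + r ≤ (G ∩ range (t + 1 + 2 * r)).card
    have b1 := dcl (𝒜.filter fun W => t + 1 + r ≤ (W ∩ range (t + 1 + 2 * r)).card)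
      (𝒮.filter fun G => t + r ≤ (G ∩ range (t + 1 + 2 * r)).card) (range (t + 1 + 2 * r))
      (t + 1 + r) (fun W hW => (mem_filter.1 hW).2) fun W hW z hz h => by
        rw [mem_range] at h
        have := card_erase_tr hz h
        have := (mem_filter.1 hW).2
        exact mem_filter.2 ⟨h2 W (mem_filter.1 hW).1 z hz (by omega), by omega⟩
    have b2 := ih (𝒜.filter fun W => ¬ t + 1 + r ≤ (W ∩ range (t + 1 + 2 * r)).card)
      (𝒮.filter fun G => ¬ t + r ≤ (G ∩ range (t + 1 + 2 * r)).card) (fun W hW => by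
        obtain ⟨c, c1, c2⟩ := h1 W (mem_filter.1 hW).1
        exact ⟨c, lt_of_le_of_ne (Nat.le_of_lt_succ c1) fun e => (mem_filter.1 hW).2 (e ▸ c2), c2⟩)
      fun W hW z hz h => by
        have := card_erase_tr hz h
        have := (mem_filter.1 hW).2
        exact mem_filter.2 ⟨h2 W (mem_filter.1 hW).1 z hz (by omega), by omega⟩
    rw [card_range, show t + 1 + 2 * r + 1 - (t + 1 + r) = r + 1 by omega] at b1
    have b3 : (𝒜.filter fun W => ¬ t + 1 + r ≤ (W ∩ range (t + 1 + 2 * r)).card).card ≤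
        (𝒮.filter fun G => ¬ t + r ≤ (G ∩ range (t + 1 + 2 * r)).card).card := by
      rcases Nat.eq_zero_or_pos r with rfl | h0
      · rw [eq_empty_of_forall_notMem (s := 𝒜.filter _) fun W hW => by
          obtain ⟨c, c1, c2⟩ := h1 W (mem_filter.1 hW).1
          obtain rfl : c = 0 := by omega
          exact (mem_filter.1 hW).2 c2, card_empty]
        exact Nat.zero_le _
      · exact Nat.le_of_mul_le_mul_right ((Nat.mul_le_mul_left _ (by omega)).trans b2) h0
    rw [← a0, ← a1]
    linarith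

end Pool.Agent.P.MP_ed1e41_co.XL
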