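import Pool.Agent.P.MP_ed1e41_co.AS.All3
import Pool.Agent.P.MP_ed1e41_co.XL.A

/-! The case in which the far members of class `j + 1` lie in the Frankl family of index `j`. -/

namespace Pool.Agent.P.MP_ed1e41_co.XL

open Finset Pool.Agent.P.MP_ed1e41_co.AS
open scoped Classical

/-- The sets with many points below `t + 2 d`. -/
def sm (n t d j : ℕ) : Finset (Finset ℕ) := Hull.big n (t + d) (t + 2 * d) (t + j + 2)

/-- The members of class `j + 1` with no further point below `t + 2 d`. -/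
noncomputable def fc (t d j : ℕ) (𝓕 : Finset (Finset ℕ)) : Finset (Finset ℕ) :=
  (cls t d (j + 1) 𝓕).filter fun W => (W ∩ range (t + 2 * d)).card ≤ t + (j + 1)

lemma hi_le {n t d m : ℕ} {𝓕 : Finset (Finset ℕ)} (h : Adm n (t + d) t m 𝓕) (hs : Shifted 𝓕)
    (j : ℕ) : (𝓕.filter fun F => Hi t j F).card ≤ (fc t d j 𝓕).card + (sm n t d j).card := by
  refine le_trans (card_le_card fun W hW => ?_) (card_union_le _ _)
  obtain ⟨h1, h2⟩ := mem_filter.1 hW
  obtain ⟨c, hc⟩ := exists_class hs h.2.1 h.card_eq h1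
  have h3 := IsClass_gt hc (h.card_eq W h1) h2
  have h4 := card_tr_mono W (show t + 2 * c ≤ t + 2 * d by have := hc.1; omega)
  have h5 := hc.2.1
  by_cases hf : (W ∩ range (t + 2 * d)).card ≤ t + (j + 1)
  · obtain rfl : c = j + 1 := by omega
    exact mem_union_left _ (mem_filter.2 ⟨mem_cls.2 ⟨h1, hc⟩, hf⟩)
  · exact mem_union_right _ (mem_big.2 ⟨h.sub W h1, h.card_eq W h1, by omega⟩)

lemma low_sum {n t d m j : ℕ} {𝓕 : Finset (Finset ℕ)} (h : Adm n (t + d) t m 𝓕) (hs : Shifted 𝓕)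
    (hj : j < d) (ht : 2 ≤ t ∨ ∀ c, c < j → cls t d c 𝓕 = ∅) :
    ((t + 2 * j).choose j * (t + j) + 1) * (𝓕.filter fun F => ¬ Hi t j F).card +
        (t + 2 * j).choose j * (j + 1) * (hsh t d (j + 1) 𝓕).card ≤
      ((cls t d j 𝓕).filter fun F => Fu t j 𝓕 F).card +
        (t + 2 * j).choose j * (j + 1) * (shadow 𝓕).card := by
  have h1 : (𝓕.filter fun F => ¬ Hi t j F).card ≤ ∑ i ∈ range (j + 1), (cls t d i 𝓕).card := by
    refine le_trans (card_le_card fun W hW => ?_) card_biUnion_le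
    obtain ⟨h1, h2⟩ := mem_filter.1 hW
    obtain ⟨c, hc⟩ := exists_class hs h.2.1 h.card_eq h1
    exact mem_biUnion.2 ⟨c, mem_range.2 (Nat.lt_succ_of_le (IsClass_le hc h2)), mem_cls.2 ⟨h1, hc⟩⟩
  have h2 : ∑ i ∈ range (j + 1 + 1), (hsh t d i 𝓕).card ≤ (shadow 𝓕).card :=
    (sum_le_sum_of_subset (range_subset_range.2 (by omega))).trans (a_DISJ t d 𝓕)
  have h3 : ∑ i ∈ range j, ((t + 2 * j).choose j * (t + j) + 1) * (cls t d i 𝓕).card ≤
      ∑ i ∈ range j, (t + 2 * j).choose j * (j + 1) * (hsh t d i 𝓕).card := by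
    refine sum_le_sum fun i hi => ?_
    rw [mem_range] at hi
    rcases ht with ht | ht
    · rw [add_mul, one_mul]
      refine GDT_low ht hi ?_ (Nat.le_of_mul_le_mul_left
        (le_trans (Nat.le_add_right _ _) (a_CELLN t d i 𝓕)) (Nat.choose_pos (by omega)))
      have := Hull.choose_le_of (N := t + 2 * j) (show 1 ≤ j by omega) (by omega)
      rw [Nat.choose_one_right] at this
      omega
    · rw [ht i hi, card_empty, mul_zero]
      exact Nat.zero_le _
  have h4 := a_CELLN t d j 𝓕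
  have h5 := card_filter_add_card_filter_not (s := cls t d j 𝓕) fun F => Fu t j 𝓕 F
  rw [← mul_sum, ← mul_sum] at h3
  rw [sum_range_succ] at h1
  rw [sum_range_succ, sum_range_succ] at h2
  have h6 := Nat.mul_le_mul_left ((t + 2 * j).choose j * (t + j) + 1) h1
  have h7 := Nat.mul_le_mul_left ((t + 2 * j).choose j * (j + 1)) h2
  generalize (t + 2 * j).choose j = c at *
  nlinarith

/-- Full cells whose tails meet the window produce members of higher classes. -/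
lemma full_le {n t d m j : ℕ} {𝓕 : Finset (Finset ℕ)} (ht : 1 ≤ t) (h : Adm n (t + d) t m 𝓕)
    (hs : Shifted 𝓕) (hj : j < d) (hn : ¬ 𝓕 ⊆ frankl n (t + d) t j) :
    ((cls t d j 𝓕).filter fun F => Fu t j 𝓕 F).card ≤
      (𝓕.filter fun F => Hi t j F).card * (2 * (d - j)) := by
  refine le_trans (card_le_card (t := (𝓕.filter fun F => Hi t j F).biUnion fun G =>
    (Ico (t + 2 * j) (t + 2 * d)).image fun y => insert y (G.erase (t + 2 * j))) fun F hF => ?_)
    (card_biUnion_le_card_mul _ _ _ fun G _ => card_image_le.trans (by rw [Nat.card_Ico]; omega))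
  obtain ⟨h1, h2⟩ := mem_filter.1 hF
  obtain ⟨h3, h4⟩ := mem_cls.1 h1
  have h5 := h4.2.1
  have h6 := card_tr_split F (t + 2 * j) (2 * (d - j))
  have h7 := COEX_same (x := 2 * (d - j)) h4
  rw [show t + 2 * j + 2 * (d - j) = t + 2 * d by omega] at h6 h7
  obtain ⟨y, hy⟩ : (F ∩ Ico (t + 2 * j) (t + 2 * d)).Nonempty := by
    rw [← card_pos]
    by_contra h0
    refine hn fun W hW => mem_frankl.2 ⟨h.sub W hW, h.card_eq W hW, ?_⟩
    have h8 := COEX_low (t := t) (c := j) (p := j) F (by omega)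
    refine (far (a := j) h hs h2 (by omega) (by omega) hW).resolve_left ?_
    have := card_tr_le W (j - j)
    omega
  obtain ⟨y1, y2⟩ := mem_inter.1 hy
  have h8 : t + 2 * j ∉ F := fun h9 => by
    have a1 := h4.2.2 (j + 1) (by omega) hj
    have a2 := card_tr_split F (t + 2 * j) 2
    have a3 : 0 < (F ∩ Ico (t + 2 * j) (t + 2 * j + 2)).card :=
      card_pos.2 ⟨_, mem_inter.2 ⟨h9, mem_Ico.2 ⟨le_rfl, by omega⟩⟩⟩
    rw [show t + 2 * (j + 1) = t + 2 * j + 2 by ring] at a1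
    omega
  have h9 : t + 2 * j < y := lt_of_le_of_ne (mem_Ico.1 y2).1 fun e => h8 (e ▸ y1)
  refine mem_biUnion.2 ⟨insert (t + 2 * j) (F.erase y), mem_filter.2
    ⟨hs F h3 _ y h9 y1 h8, j + 1, by omega, ?_⟩, mem_image.2 ⟨y, y2, ?_⟩⟩
  · have a1 : t + 2 * j ∉ F ∩ range (t + 2 * j) := fun h => h8 (mem_inter.1 h).1
    rw [← add_assoc, ← h5, ← card_insert_of_notMem a1]
    refine card_le_card fun z => ?_
    simp only [mem_insert, mem_inter, mem_erase, mem_range]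
    grind
  · rw [erase_insert fun h => h8 (mem_of_mem_erase h), insert_erase y1]

lemma beta_num {c s J e K m L H N S P h Z U : ℕ} (hm : 1 ≤ m) (h1 : H + L = m)
    (h2 : H ≤ N + S) (h3 : (c * s + 1) * L + c * J * h ≤ P + c * J * Z)
    (h4 : (2 * (c * s) + 1) * N ≤ 2 * (c * J) * h) (h5 : P ≤ H * (2 * e)) (h6 : P ≤ L) (h7 : Z < U)
    (h8 : K * J * U ≤ K * s * m + 5 * J * m) (h9 : K * S ≤ m)
    (hK : (2 * e + 1) * (10 * c * J + 2 * c * s + 1) < K) : False := by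
  obtain ⟨X, rfl⟩ := Nat.exists_eq_add_of_le h6
  have a3 := Nat.mul_le_mul_left (c * s) (show m ≤ P + X + N + S by omega)
  have a4 : 2 * (c * s * m) + 2 * X + N ≤ 2 * (c * J * Z) + 2 * (c * s * S) := by nlinarith
  have a5 := Nat.mul_le_mul_left K a4
  have a6 := Nat.mul_le_mul_left c ((Nat.mul_le_mul_left (K * J) h7.le).trans h8)
  have a7 := Nat.mul_le_mul_left (c * s) h9
  have a8 : K * (2 * X + N) ≤ (10 * c * J + 2 * c * s) * m := by nlinarith
  have a9 := Nat.mul_le_mul_right (2 * e) h2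
  have b1 : m ≤ (2 * e + 1) * (2 * X + N + S) := by nlinarith
  have b2 := Nat.mul_le_mul_left K b1
  have b3 := Nat.mul_le_mul_left (2 * e + 1) (Nat.add_le_add a8 h9)
  have b4 := Nat.mul_lt_mul_of_lt_of_le hK (le_refl m) hm
  nlinarith

/-- Far members of class `j + 1` that lie in a Frankl family of index at most `j`. -/
lemma fc_pay {t d j : ℕ} {𝓕 : Finset (Finset ℕ)}
    (hC : ∀ W ∈ fc t d j 𝓕, t + j ≤ (W ∩ range (t + 2 * j)).card ∨
      (2 ≤ t ∧ ∃ c, c < j ∧ t + c ≤ (W ∩ range (t + 2 * c)).card)) :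
    (2 * ((t + 2 * j).choose j * (t + j)) + 1) * (fc t d j 𝓕).card ≤
      2 * ((t + 2 * j).choose j * (j + 1)) * (hsh t d (j + 1) 𝓕).card := by
  have a0 := card_filter_add_card_filter_not (s := fc t d j 𝓕)
    fun W => t + j ≤ (W ∩ range (t + 2 * j)).card
  have a1 := card_filter_add_card_filter_not (s := hsh t d (j + 1) 𝓕)
    fun G => t + j ≤ (G ∩ range (t + 2 * j)).card + 1
  have hh : ∀ W ∈ fc t d j 𝓕, ∀ z ∈ W, z < t + 2 * (j + 1) → W.erase z ∈ hsh t d (j + 1) 𝓕 :=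
    fun W hW z hz h => mem_hsh.2 ⟨W, (mem_filter.1 hW).1, z, hz, h, rfl⟩
  have b1 := two (𝒞 := (fc t d j 𝓕).filter fun W => t + j ≤ (W ∩ range (t + 2 * j)).card)
    (𝒮 := (hsh t d (j + 1) 𝓕).filter fun G => t + j ≤ (G ∩ range (t + 2 * j)).card + 1)
    ((filter_subset _ _).trans (filter_subset _ _)) (fun W hW => (mem_filter.1 hW).2)
    fun W hW z hz h => by
      refine mem_filter.2 ⟨hh W (mem_filter.1 hW).1 z hz h, (mem_filter.1 hW).2.trans ?_⟩
      rw [erase_inter]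
      exact Nat.le_add_of_sub_le pred_card_le_card_erase
  have c1 : 1 ≤ (t + 2 * j).choose j := Nat.choose_pos (by omega)
  have b2 := Nat.mul_le_mul_left ((t + 2 * j).choose j) b1
  have b3 := Nat.mul_le_mul_right
    ((fc t d j 𝓕).filter fun W => t + j ≤ (W ∩ range (t + 2 * j)).card).card c1
  rcases ((fc t d j 𝓕).filter fun W =>
    ¬ t + j ≤ (W ∩ range (t + 2 * j)).card).eq_empty_or_nonempty with e | ⟨Y, hY⟩
  · rw [e, card_empty, add_zero] at a0
    rw [a0] at b2 b3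
    have b4 := Nat.mul_le_mul_left (2 * ((t + 2 * j).choose j * (j + 1)))
      (card_filter_le (hsh t d (j + 1) 𝓕) fun G => t + j ≤ (G ∩ range (t + 2 * j)).card + 1)
    linarith
  rw [← a0, ← a1]
  obtain ⟨t2, c, c2, -⟩ := (hC Y (mem_filter.1 hY).1).resolve_left (mem_filter.1 hY).2
  obtain ⟨t, rfl⟩ : ∃ t', t = t' + 1 := ⟨t - 1, by omega⟩
  have b4 := walk_pay t j ((fc (t + 1) d j 𝓕).filter fun W =>
    ¬ t + 1 + j ≤ (W ∩ range (t + 1 + 2 * j)).card) ((hsh (t + 1) d (j + 1) 𝓕).filter fun G =>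
    ¬ t + 1 + j ≤ (G ∩ range (t + 1 + 2 * j)).card + 1)
    (fun W hW => ((hC W (mem_filter.1 hW).1).resolve_left (mem_filter.1 hW).2).2)
    fun W hW z hz h => mem_filter.2 ⟨hh W (mem_filter.1 hW).1 z hz (by omega), by
      rw [card_erase_tr hz h]
      exact (mem_filter.1 hW).2⟩
  obtain ⟨i, rfl⟩ : ∃ i, j = i + 1 := ⟨j - 1, by omega⟩
  have b5 := GDT_low (j := i + 1) (c := (t + 1 + 2 * (i + 1)).choose (i + 1)) t2 i.lt_succ_self (by
    have := Hull.choose_le_of (N := t + 1 + 2 * (i + 1)) (show 1 ≤ i + 1 by omega) (by omega)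
    rw [Nat.choose_one_right] at this
    omega) (((mul_comm _ _).trans (congrArg _ (show t + 1 + i = t + (i + 1) by ring))).trans_le
      (b4.trans_eq (mul_comm _ _)))
  linarith

lemma beta {n t d m j K U : ℕ} {𝓕 : Finset (Finset ℕ)} (ht1 : 1 ≤ t) (hm : 1 ≤ m)
    (h : Adm n (t + d) t m 𝓕) (hs : Shifted 𝓕) (hj : j < d)
    (ht : 2 ≤ t ∨ ∀ c, c < j → cls t d c 𝓕 = ∅)
    (hC : ∀ W ∈ fc t d j 𝓕, t + j ≤ (W ∩ range (t + 2 * j)).card ∨
      (2 ≤ t ∧ ∃ c, c < j ∧ t + c ≤ (W ∩ range (t + 2 * c)).card)) (hZ : (shadow 𝓕).card < U)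
    (hU : K * (j + 1) * U ≤ K * (t + j) * m + 5 * (j + 1) * m) (hS : K * (sm n t d j).card ≤ m)
    (hK : (2 * (d - j) + 1) * (10 * (t + 2 * j).choose j * (j + 1) +
      2 * (t + 2 * j).choose j * (t + j) + 1) < K) : 𝓕 ⊆ frankl n (t + d) t j := by
  by_contra hn
  refine beta_num hm
    ((card_filter_add_card_filter_not (s := 𝓕) fun F => Hi t j F).trans h.2.2) (hi_le h hs j)
    (low_sum h hs hj ht) (fc_pay hC) (full_le ht1 h hs hj hn)
    (card_le_card fun F hF => ?_) hZ hU hS hK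
  obtain ⟨h1, h2⟩ := mem_cls.1 (mem_filter.1 hF).1
  exact mem_filter.2 ⟨h1, fun h3 => lt_irrefl _ (IsClass_gt h2 (h.card_eq F h1) h3)⟩

end Pool.Agent.P.MP_ed1e41_co.XL
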