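import Pool.Agent.P.MP_ed1e41_co.XL.B

/-! The case `j (j + 3) < t`. -/

namespace Pool.Agent.P.MP_ed1e41_co.XL

open Finset Pool.Agent.P.MP_ed1e41_co.AS
open scoped Classical

lemma pascal (N J r : ℕ) :
    (N + r + 1).choose (J + 1) ≤ N.choose (J + 1) + (r + 1) * (N + r).choose J := by
  induction r with
  | zero => simp [Nat.choose_succ_succ', add_comm]
  | succ r ih =>
    have h1 := Nat.choose_succ_succ' (N + r + 1) J
    have h2 := Nat.mul_le_mul_left (r + 1) (Nat.choose_le_choose J (show N + r ≤ N + r + 1 by omega))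
    rw [← add_assoc, h1]
    nlinarith

lemma cond {t j a w D : ℕ} (hj : j = a + 1 + w) (ht : j * (j + 3) ≤ t)
    (hD : D + (a + 1) * (t + 1 + j + 1) = (j + 2) * (t + 1)) :
    (t + 1 + 2 * (j + 1)).choose (j + 1) * (a + 1) * t <
      (t + 1 + a + j).choose (j + 1) * D * (j + 1) := by
  have h1 := pascal (t + 1 + a + j) j (w + 2)
  have h2 := Nat.add_one_mul_choose_eq (t + 1 + a + j + (w + 2)) j
  rw [show t + 1 + a + j + (w + 2) + 1 = t + 1 + 2 * (j + 1) by omega] at h1 h2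
  have hM : 0 < (t + 1 + 2 * (j + 1)).choose (j + 1) := Nat.choose_pos (by omega)
  generalize (t + 1 + 2 * (j + 1)).choose (j + 1) = M at *
  generalize (t + 1 + a + j).choose (j + 1) = C at *
  generalize (t + 1 + a + j + (w + 2)).choose j = B at *
  obtain ⟨z, rfl⟩ := Nat.exists_eq_add_of_le ht
  subst hj
  obtain rfl : D = a ^ 2 * w + a ^ 2 + 8 * a * w + 7 * a + 2 * a * w ^ 2 + 14 * w + 8 + 7 * w ^ 2 +
      w ^ 3 + w * z + 2 * z := by nlinarith
  generalize hD' : a ^ 2 * w + a ^ 2 + 8 * a * w + 7 * a + 2 * a * w ^ 2 + 14 * w + 8 + 7 * w ^ 2 +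
      w ^ 3 + w * z + 2 * z = D
  generalize hT : (a + 1 + w) * (a + 1 + w + 3) + z + 1 + 2 * (a + 1 + w + 1) = T at *
  have h3 : (a ^ 2 + 4 * a + a * w + 3 + 2 * w + z) * M ≤ T * C := by
    have b1 := Nat.mul_le_mul_left T h1
    have b2 : T = a ^ 2 + 4 * a + a * w + 3 + 2 * w + z + (w + 2 + 1) * (a + 1 + w + 1) := by
      rw [← hT]; ring
    have b3 : T * (C + (w + 2 + 1) * B) = T * C + (w + 2 + 1) * (T * B) := by ring
    rw [b3, h2] at b1
    nth_rewrite 1 [b2] at b1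
    nlinarith
  have h4 : T * ((a + 1) * ((a + 1 + w) * (a + 1 + w + 3) + z)) <
      (a ^ 2 + 4 * a + a * w + 3 + 2 * w + z) * (D * (a + 1 + w + 1)) := by
    have : (a ^ 2 + 4 * a + a * w + 3 + 2 * w + z) * (D * (a + 1 + w + 1)) =
        T * ((a + 1) * ((a + 1 + w) * (a + 1 + w + 3) + z)) + 1 +
        (11 + 15*z^1 + 3*z^2 + 67*w^1 + 44*w^1*z^1 + 4*w^1*z^2 + 108*w^2 + 37*w^2*z^1 +
          1*w^2*z^2 + 71*w^3 + 11*w^3*z^1 + 20*w^4 + 1*w^4*z^1 + 2*w^5 + 21*a^1 + 19*a^1*z^1 +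
          1*a^1*z^2 + 146*a^1*w^1 + 48*a^1*w^1*z^1 + 1*a^1*w^1*z^2 + 195*a^1*w^2 +
          27*a^1*w^2*z^1 + 95*a^1*w^3 + 4*a^1*w^3*z^1 + 18*a^1*w^4 + 1*a^1*w^5 + 10*a^2 +
          7*a^2*z^1 + 125*a^2*w^1 + 17*a^2*w^1*z^1 + 130*a^2*w^2 + 5*a^2*w^2*z^1 + 42*a^2*w^3 +
          4*a^2*w^4 + 1*a^3 + 1*a^3*z^1 + 55*a^3*w^1 + 2*a^3*w^1*z^1 + 38*a^3*w^2 + 6*a^3*w^3 +
          12*a^4*w^1 + 4*a^4*w^2 + 1*a^5*w^1) := by
      rw [← hT, ← hD']; ring
    omega
  refine Nat.lt_of_mul_lt_mul_left (a := T) ?_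
  have h5 := Nat.mul_le_mul_right (D * (a + 1 + w + 1)) h3
  have h6 := Nat.mul_lt_mul_of_lt_of_le h4 (le_refl M) hM
  nlinarith

lemma alpha_num {t j u D M C κ A K m L N S x h Z U : ℕ} (hm : 1 ≤ m)
    (h2 : m ≤ L + N + S) (h3 : L * (t + 1) ≤ x * u) (h4 : (t + 1 + (j + 1)) * N ≤ (j + 1 + 1) * h)
    (h5 : x + h ≤ Z) (h6 : Z < U) (h7 : N ≤ κ * A) (h8 : κ + C ≤ M) (h9 : M * A ≤ m)
    (h10 : K * (j + 1) * U ≤ K * (t + 1 + j) * m + 5 * (j + 1) * m) (h11 : K * S ≤ m)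
    (hD : D + u * (t + 1 + j + 1) = (j + 2) * (t + 1)) (hc : M * u * t < C * D * (j + 1))
    (hK : M * (j + 1) * (j + 2) * (5 * u + (t + 1)) < K) : False := by
  have a1 := Nat.mul_le_mul_left (j + 2) h3
  have a2 := Nat.mul_le_mul_left u h4
  have a3 := Nat.mul_le_mul_left (u * (j + 2)) h5
  have a4 := Nat.mul_le_mul_left ((j + 2) * (t + 1)) h2
  have a5 : (j + 2) * (t + 1) * N = D * N + u * (t + 1 + j + 1) * N := by rw [← hD]; ring
  have b1 : (j + 2) * (t + 1) * m ≤ u * (j + 2) * Z + D * N + (j + 2) * (t + 1) * S := by linarith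
  have b2 : M * N + C * m ≤ M * m := by
    have c1 := Nat.mul_le_mul_left M h7
    have c2 := Nat.mul_le_mul_left κ h9
    have c3 := Nat.mul_le_mul_right m h8
    linarith
  have b3 := Nat.mul_le_mul_left (M * (j + 1)) b1
  have b4 := Nat.mul_le_mul_left ((j + 1) * D) b2
  have b5 := Nat.mul_le_mul_right m (Nat.succ_le_of_lt hc)
  have b6 : M * (j + 1) * ((j + 2) * (t + 1) * m) =
      M * (j + 1) * D * m + M * (j + 1) * (u * (t + 1 + j + 1)) * m := by rw [← hD]; ring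
  have b7 : M * u * (j + 2) * (t + 1 + j) * m + m ≤
      M * u * (j + 2) * ((j + 1) * Z) + M * (j + 1) * (j + 2) * (t + 1) * S := by
    rw [Nat.succ_eq_add_one] at b5
    linarith
  have c1 := Nat.mul_le_mul_left K b7
  have c2 := Nat.mul_le_mul_left (M * u * (j + 2))
    ((Nat.mul_le_mul_left (K * (j + 1)) h6.le).trans h10)
  have c3 := Nat.mul_le_mul_left (M * (j + 1) * (j + 2) * (t + 1)) h11
  have c4 := Nat.mul_lt_mul_of_lt_of_le hK (le_refl m) hm
  linarith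

/-- The heads with all their holes below `v`. -/
lemma heads {t j a w : ℕ} (hj : j = a + 1 + w) :
    (((range (t + 1 + 2 * (j + 1))).powersetCard (t + 1 + (j + 1))).filter fun H =>
        ¬ (H ∩ range (t + 1 + a + j)).card + (j + 1) ≤ t + 1 + a + j).card +
      (t + 1 + a + j).choose (j + 1) ≤ (t + 1 + 2 * (j + 1)).choose (j + 1) := by
  have h1 := card_lev (n := t + 1 + 2 * (j + 1)) (M := t + 1 + a + j) (q := w + 3) (c := t + a)
    (e := w + 3) (by omega)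
  rw [Nat.choose_self, mul_one, Nat.choose_symm_of_eq_add (show t + 1 + a + j = t + a + (j + 1) by
    omega)] at h1
  have h2 := card_filter_add_card_filter_not
    (s := (range (t + 1 + 2 * (j + 1))).powersetCard (t + 1 + (j + 1)))
    fun H => (H ∩ range (t + 1 + a + j)).card + (j + 1) ≤ t + 1 + a + j
  rw [card_powersetCard, card_range, cc_symm] at h2
  rw [← h2, ← h1, add_comm]
  refine Nat.add_le_add_right (card_le_card fun H hH => ?_) _
  rw [mem_lev] at hH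
  exact mem_filter.2 ⟨mem_powersetCard.2 ⟨hH.1, by omega⟩, by omega⟩

/-- The two disjoint parts of the shadow. -/
lemma comb {n t d m j e q α β : ℕ} {𝓕 𝓗 : Finset (Finset ℕ)} (hS : St n t d j m e q)
    (h : Adm n (t + d) t m 𝓕) (hs : Shifted 𝓕)
    (hL : ∀ 𝒮 : Finset (Finset ℕ), (∀ W ∈ 𝓕.filter fun F => ¬ Hi t j F, ∀ z ∈ W,
      z < t + 2 * (j + 1) → W.erase z ∈ 𝒮) →
      (𝓕.filter fun F => ¬ Hi t j F).card * α ≤ 𝒮.card * β)
    (hC : ∀ W ∈ fc t d j 𝓕, W ∩ range (t + 2 * (j + 1)) ∈ 𝓗) :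
    ∃ L x, m ≤ L + (fc t d j 𝓕).card + (sm n t d j).card ∧ L * α ≤ x * β ∧
      x + (hsh t d (j + 1) 𝓕).card ≤ (shadow 𝓕).card ∧
      (fc t d j 𝓕).card ≤ 𝓗.card * (q - 2).choose (e - 1) := by
  have hd := hS.hd
  have hn := hS.hn
  have e1 := hS.e1
  have hq := hS.hq
  have a1 := card_filter_add_card_filter_not (s := shadow 𝓕)
    fun G => (G ∩ range (t + 2 * (j + 1))).card + 1 < t + (j + 1)
  have a2 := hL ((shadow 𝓕).filter fun G => (G ∩ range (t + 2 * (j + 1))).card + 1 < t + (j + 1))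
    fun W hW z hz hz' => by
      refine mem_filter.2 ⟨erase_mem_shadow (mem_filter.1 hW).1 hz, ?_⟩
      rw [card_erase_tr hz hz']
      exact not_le.1 fun b2 => (mem_filter.1 hW).2 ⟨j + 1, by omega, b2⟩
  have a3 : (hsh t d (j + 1) 𝓕).card ≤ ((shadow 𝓕).filter
      fun G => ¬ (G ∩ range (t + 2 * (j + 1))).card + 1 < t + (j + 1)).card := by
    refine card_le_card fun G hG => ?_
    obtain ⟨F, hF, z, hz, b1, rfl⟩ := mem_hsh.1 hG
    refine mem_filter.2 ⟨erase_mem_shadow (mem_cls.1 hF).1 hz, ?_⟩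
    rw [card_erase_tr hz b1, (mem_cls.1 hF).2.2.1]
    exact lt_irrefl _
  have a5 := card_le_prod (𝓕 := fc t d j 𝓕) (𝓗 := 𝓗)
    (𝓣 := (Ico (t + 2 * (j + 1)) n).powersetCard (e - 1)) (t + 2 * (j + 1)) fun F hF => by
      obtain ⟨b1, b2⟩ := mem_cls.1 (mem_filter.1 hF).1
      have b3 := card_head_tail F (t + 2 * (j + 1))
      have b4 := h.card_eq F b1
      have b5 := b2.2.1
      exact ⟨hC F hF, mem_powersetCard.2 ⟨tail_sub (h.sub F b1), by omega⟩⟩
  rw [card_powersetCard, Nat.card_Ico, show n - (t + 2 * (j + 1)) = q - 2 by omega] at a5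
  have a6 := card_filter_add_card_filter_not (s := 𝓕) fun F => Hi t j F
  have a7 := hi_le h hs j
  rw [h.2.2] at a6
  exact ⟨_, _, by omega, a2, by omega, a5⟩

lemma alpha_comb {n t d m j e q a w : ℕ} {𝓕 : Finset (Finset ℕ)} (hS : St n (t + 1) d j m e q)
    (h : Adm n (t + 1 + d) (t + 1) m 𝓕) (hs : Shifted 𝓕) (hj : j = a + 1 + w)
    {Y : Finset ℕ} (hY : Y ∈ fc (t + 1) d j 𝓕)
    (hY' : (Y ∩ range (t + 1 + (a + 1) + j)).card + (j + 1) ≤ t + 1 + (a + 1) + j)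
    (hC : ∀ W ∈ fc (t + 1) d j 𝓕, ¬ (W ∩ range (t + 1 + a + j)).card + (j + 1) ≤ t + 1 + a + j) :
    ∃ L N x y κ, m ≤ L + N + (sm n (t + 1) d j).card ∧ L * (t + 1) ≤ x * (a + 1) ∧
      (t + 1 + (j + 1)) * N ≤ (j + 1 + 1) * y ∧ x + y ≤ (shadow 𝓕).card ∧
      N ≤ κ * (q - 2).choose (e - 1) ∧
      κ + (t + 1 + a + j).choose (j + 1) ≤ (t + 1 + 2 * (j + 1)).choose (j + 1) := by
  obtain ⟨L, x, a1, a2, a3, a4⟩ := comb (α := t + 1) (β := a + 1)
    (𝓗 := ((range (t + 1 + 2 * (j + 1))).powersetCard (t + 1 + (j + 1))).filter fun H =>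
        ¬ (H ∩ range (t + 1 + a + j)).card + (j + 1) ≤ t + 1 + a + j) hS h hs (fun 𝒮 h𝒮 => by
      have a2 := dcl (𝓕.filter fun F => ¬ Hi (t + 1) j F) 𝒮 (range (t + 1 + a)) (t + 1)
        (fun W hW => by
          have b1 := far h hs (mem_cls.1 (mem_filter.1 hY).1).1 (mem_filter.1 hY).2 hY'
            (mem_filter.1 hW).1
          rw [show t + 1 + (a + 1) + j - (j + 1) = t + 1 + a by omega] at b1
          exact b1.resolve_right fun b2 => (mem_filter.1 hW).2 ⟨j + 1, by omega, b2⟩)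
        fun W hW z hz hz' => h𝒮 W hW z hz (by have := mem_range.1 hz'; omega)
      rwa [card_range, show t + 1 + a + 1 - (t + 1) = a + 1 by omega] at a2) fun F hF => by
      refine mem_filter.2 ⟨mem_powersetCard.2 ⟨inter_subset_right,
        (mem_cls.1 (mem_filter.1 hF).1).2.2.1⟩, ?_⟩
      rw [inter_assoc, (inter_eq_right (s := range _)).2 (range_subset_range.2 (by omega))]
      exact hC F hF
  exact ⟨_, _, _, _, _, a1, a2, (Nat.mul_le_mul_left _ (card_filter_le _ _)).trans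
    (Nat.le_of_mul_le_mul_left (le_trans (Nat.le_add_right _ _) (a_CELLN (t + 1) d (j + 1) 𝓕))
      (Nat.choose_pos (by omega))), a3, a4, heads hj⟩

/-- A far member of class `j + 1` has a hole from `t + j` on. -/
lemma no_far {n t d m j e q : ℕ} {𝓕 : Finset (Finset ℕ)} (hS : St n t d j m e q)
    (h : Adm n (t + d) t m 𝓕) (hs : Shifted 𝓕) {Y : Finset ℕ} (hY : Y ∈ 𝓕)
    (h1 : (Y ∩ range (t + 2 * d)).card ≤ t + (j + 1)) :
    ¬ (Y ∩ range (t + j)).card + (j + 1) ≤ t + j := fun h2 => by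
  have h3 : 𝓕 ⊆ frankl n (t + d) t (j + 1) := fun W hW => mem_frankl.2
    ⟨h.sub W hW, h.card_eq W hW, (far h hs hY h1 h2 hW).resolve_left (by
      have := card_tr_le W (t + j - (j + 1))
      have := hS.t1
      omega)⟩
  have h4 := card_le_card h3
  have := hS.lo
  rw [h.2.2] at h4
  omega

/-- Moving the last hole to the right. -/
lemma chain {n t d m j e q : ℕ} {𝓕 : Finset (Finset ℕ)} (hS : St n (t + 1) d j m e q)
    (h : Adm n (t + 1 + d) (t + 1) m 𝓕) (hs : Shifted 𝓕)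
    (hα : ∀ a w L N x y κ, j = a + 1 + w → m ≤ L + N + (sm n (t + 1) d j).card →
      L * (t + 1) ≤ x * (a + 1) → (t + 1 + (j + 1)) * N ≤ (j + 1 + 1) * y →
      x + y ≤ (shadow 𝓕).card → N ≤ κ * (q - 2).choose (e - 1) →
      κ + (t + 1 + a + j).choose (j + 1) ≤ (t + 1 + 2 * (j + 1)).choose (j + 1) → False) :
    ∀ W ∈ fc (t + 1) d j 𝓕, t + 1 + j ≤ (W ∩ range (t + 1 + 2 * j)).card := by
  have key : ∀ a, a ≤ j → ∀ W ∈ fc (t + 1) d j 𝓕,
      ¬ (W ∩ range (t + 1 + a + j)).card + (j + 1) ≤ t + 1 + a + j := by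
    intro a
    induction a with
    | zero =>
      exact fun _ W hW => no_far hS h hs (mem_cls.1 (mem_filter.1 hW).1).1 (mem_filter.1 hW).2
    | succ a ih =>
      intro ha Y hY hY'
      obtain ⟨L, N, x, y, κ, b1, b2, b3, b4, b5, b6⟩ :=
        alpha_comb (w := j - (a + 1)) hS h hs (by omega) hY hY' (ih (by omega))
      exact hα a (j - (a + 1)) L N x y κ (by omega) b1 b2 b3 b4 b5 b6
  intro W hW
  have := key j le_rfl W hW
  rw [show t + 1 + j + j = t + 1 + 2 * j by ring] at this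
  omega

lemma big_t {n t d m j e q K U : ℕ} {𝓕 : Finset (Finset ℕ)} (hS : St n t d j m e q)
    (h : Adm n (t + d) t m 𝓕) (hs : Shifted 𝓕) (ht : j * (j + 3) < t) (hZ : (shadow 𝓕).card < U)
    (hU : K * (j + 1) * U ≤ K * (t + j) * m + 5 * (j + 1) * m) (hs' : K * (sm n t d j).card ≤ m)
    (hK : (2 * (d - j) + 1) * (10 * (t + 2 * j).choose j * (j + 1) +
      2 * (t + 2 * j).choose j * (t + j) + 1) < K)
    (hK' : (t + 2 * (j + 1)).choose (j + 1) * (j + 1) * (j + 2) * (5 * j + t) < K) :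
    𝓕 ⊆ frankl n (t + d) t j := by
  have hd := hS.hd
  have hn := hS.hn
  have e1 := hS.e1
  have hq := hS.hq
  have hlo := hS.lo
  obtain ⟨t, rfl⟩ : ∃ t', t = t' + 1 := ⟨t - 1, by omega⟩
  have a6 := ble (n := n) (t := t + 1) (d := d) (i := j + 1) (e := e - 1) (q := q - 2) (by omega)
    (by omega)
  refine beta hS.t1 (by omega) h hs (by omega) ?_
    (fun W hW => Or.inl (chain hS h hs (fun a w L N x y κ hj b1 b2 b3 b4 b5 b6 => ?_) W hW))
    hZ hU hs' hK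
  · rcases Nat.eq_zero_or_pos j with rfl | h0
    · exact Or.inr fun c hc => absurd hc (Nat.not_lt_zero _)
    · exact Or.inl (by nlinarith)
  · obtain ⟨D, hD⟩ : ∃ D, D + (a + 1) * (t + 1 + j + 1) = (j + 2) * (t + 1) :=
      ⟨_, Nat.sub_add_cancel (by subst hj; nlinarith)⟩
    exact alpha_num (by omega) b1 b2 b3 b4 hZ b5 b6 (a6.trans hlo.le) hU hs' hD
      (cond hj (by omega) hD) (lt_of_le_of_lt (Nat.mul_le_mul_left _ (by omega)) hK')

end Pool.Agent.P.MP_ed1e41_co.XL
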