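import Pool.Agent.P.MP_ed1e41_co.XL.S

/-! The case `t = 1` and the theorem for large ground sets. -/

namespace Pool.Agent.P.MP_ed1e41_co.XL

open Finset Pool.Agent.P.MP_ed1e41_co.AS
open scoped Classical

lemma ground {t j Q k m x : ℕ} (h1 : 2 ^ (t + 2 * j + x) < m)
    (h2 : m ≤ (frankl (t + 2 * j + Q) k t j).card) : x ≤ Q := by
  have := (Nat.pow_lt_pow_iff_right (by omega)).1 (h1.trans_le (h2.trans (frankl_le_pow _ _ _ _)))
  omega

lemma ul {n t d j m e q K : ℕ} (hs : St n t d j m e q) (hK : 2 ≤ K)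
    (hm : 2 ^ (t + 2 * j + (K * e + e)) < m) (hm' : K * (t + j) * (t + 2 * j).choose j ≤ m) :
    K * (j + 1) * (shadow (colexInit (frankl n (t + d) t j) m)).card ≤
      K * (t + j) * m + 5 * (j + 1) * m := by
  obtain ⟨q', h1, h2, h3, h4⟩ := a_NP n t d j m e q hs
  have t1 := hs.t1
  have hd := hs.hd
  have hn := hs.hn
  have h6 := ground hm h3
  have h7 := a_UPM n (t + 2 * j + q') t d j m 0 0 ((t + 2 * j).choose j) (j + 1) t1 (by omega)
    (by omega) (by omega) (by omega) (by omega) h3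
    fun r hr => choose_anti (by omega) (by omega)
  have h8 := a_HIA _ t d j e q' K t1 hd rfl hK (by omega)
  rw [add_zero] at h7
  have h9 := Nat.mul_le_mul_left K h7
  have h10 := Nat.mul_le_mul_left (j + 1) (h8.trans (Nat.mul_le_mul_left 2 h4))
  have h11 : m ≤ (j + 1) * m := Nat.le_mul_of_pos_left _ j.succ_pos
  linarith

lemma hi_sm {n t d m : ℕ} {𝓕 : Finset (Finset ℕ)} (h : Adm n (t + d) t m 𝓕) (j : ℕ) :
    (𝓕.filter fun F => Hi t (j + 1) F).card ≤ (sm n t d j).card := by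
  refine card_le_card fun W hW => ?_
  obtain ⟨h1, i, h2, h3⟩ := mem_filter.1 hW
  have h4 := card_tr_le' W (t + 2 * i)
  rw [h.card_eq W h1] at h4
  have h5 := card_tr_mono W (show t + 2 * i ≤ t + 2 * d by omega)
  exact mem_big.2 ⟨h.sub W h1, h.card_eq W h1, by omega⟩

lemma one_num {K K' w v m P H Z U : ℕ} (h1 : m + w * m ≤ P + H + w * Z) (h2 : m ≤ Z) (h3 : Z < U)
    (h4 : K' * U ≤ (K' + 5) * m) (h5 : K' * H ≤ m) (h6 : 5 * K * w ≤ K') (h7 : K ≤ K') :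
    ∃ N, m + v * m ≤ P + N + v * Z ∧ K * N ≤ 2 * m ∧ K * U ≤ (K + 5) * m := by
  obtain ⟨x, rfl⟩ := Nat.exists_eq_add_of_le h2
  obtain ⟨y, rfl⟩ := Nat.exists_eq_add_of_lt h3
  have a1 := Nat.mul_le_mul_right (x + y + 1) h6
  have a2 := Nat.mul_le_mul_right (x + y + 1) h7
  have a3 := Nat.mul_le_mul_right H h7
  have a4 := Nat.zero_le (K * w * (y + 1))
  have a5 := Nat.zero_le (v * x)
  exact ⟨H + w * x, by linarith, by linarith, by linarith⟩

lemma one_low {n d j m f q K K' i : ℕ} {𝓕 : Finset (Finset ℕ)} (hS : St n 1 d j m (f + 2) q)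
    (hA : Adm n (1 + d) 1 m 𝓕) (hs : Shifted 𝓕)
    (hlt : (shadow 𝓕).card < (shadow (colexInit (frankl n (1 + d) 1 j) m)).card)
    (hK1 : 10 ^ 7 * (j + 1) ^ 4 * (1 + 2 * j).choose j ≤ K)
    (hK2 : 10 ^ 4 * (j + 1) ^ 2 * 4 ^ (j + 1) ≤ K)
    (hK3 : 5 * K * ((1 + 2 * (j + 1)).choose (j + 1) * (j + 1 + 1)) ≤ K') (hK4 : K ≤ K')
    (hU : K' * (shadow (colexInit (frankl n (1 + d) 1 j) m)).card ≤ (K' + 5) * m)
    (hH : K' * (sm n 1 d j).card ≤ m) (hq : 9 * (d + 1) ≤ q)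
    (hm : 2 ^ (1 + 2 * j + (K * (f + 3) + (f + 3))) < m)
    (hQ : ∀ y, n ≤ 4 * (K * (1 + 2 * j).choose j) * y → m < y.choose (f + 2)) (i3 : i < j)
    {F : Finset ℕ} (hF : F ∈ cls 1 d i 𝓕) (hF' : Fu 1 i 𝓕 F)
    (i2 : m + (1 + 2 * (j + 1)).choose (j + 1) * (j + 1 + 1) * m ≤
      ((cls 1 d i 𝓕).filter fun F => Fu 1 i 𝓕 F).card + (sm n 1 d j).card +
        (1 + 2 * (j + 1)).choose (j + 1) * (j + 1 + 1) * (shadow 𝓕).card) : False := by
  have hd := hS.hd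
  have hn := hS.hn
  have hlo := hS.lo
  have c1 : 1 ≤ (1 + 2 * j).choose j := Nat.choose_pos (by omega)
  have p1 : j + 1 ≤ (j + 1) ^ 4 := Nat.le_self_pow (by omega) _
  have p2 : 10 ^ 7 * ((1 + 2 * j).choose j * (j + 1)) ≤ K := by
    refine le_trans ?_ hK1
    rw [mul_assoc, mul_comm ((j + 1) ^ 4)]
    exact Nat.mul_le_mul_left _ (Nat.mul_le_mul_left _ p1)
  have p3 : j + 1 ≤ (1 + 2 * j).choose j * (j + 1) := Nat.le_mul_of_pos_left _ c1
  have p4 : (1 + 2 * j).choose j ≤ (1 + 2 * j).choose j * (j + 1) :=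
    Nat.le_mul_of_pos_right _ j.succ_pos
  obtain ⟨a, ha⟩ : ∃ a, j = i + a := ⟨j - i, by omega⟩
  obtain ⟨g, hg⟩ : ∃ g, d = i + g + 1 := ⟨d - i - 1, by omega⟩
  obtain ⟨Q, q1, q2, q3⟩ := a_NPT n 1 d j m (f + 2) q hS
  have q0 := ground hm q2
  have q4 : K * (f + 2) + (f + 2) ≤ Q := by
    have : K * (f + 2) ≤ K * (f + 3) := Nat.mul_le_mul_left _ (by omega)
    omega
  have q6 := a_UPO n d j m (f + 2) q Q K hS q1 (by omega) q4 q2
  have q7 := a_DEFO n d m i g 𝓕 F hA hs hg hF hF'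
  have e2 := GDO_c (show 9 ≤ K by omega) (show 1 ≤ f + 3 by omega)
  obtain ⟨q8, -⟩ := a_NSH (1 + 2 * i + 2) a n (q - 2) g (by omega) (by omega)
  have b1 : 1 ≤ (1 + 2 * i).choose i := Nat.choose_pos (by omega)
  have b2 := cc_mono 1 i3.le
  rw [show f + 2 - 1 = f + 1 by omega] at q6
  rw [show g - (a + 1) = f by omega] at q8
  have s2 := Nat.choose_succ_right_eq Q (f + 1)
  have s4 : (Q - 1).choose (f + 2) * Q = Q.choose (f + 2) * (Q - (f + 2)) := by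
    have := Nat.choose_mul_succ_eq (Q - 1) (f + 2)
    rwa [show Q - 1 + 1 = Q by omega] at this
  have r1 := a_HIA (1 + 2 * j + Q) 1 (d + 1) j (f + 3) Q K le_rfl (by omega) rfl (by omega)
    (by omega)
  rw [show 1 + (d + 1) - 1 = 1 + d by omega] at r1
  have r2 : m ≤ Q.choose (f + 3) := by
    refine Nat.le_of_mul_le_mul_left (c := K) (((Nat.mul_le_mul_left K q2).trans r1).trans ?_)
      (by omega)
    rw [← mul_assoc]
    exact Nat.mul_le_mul_right _ (by omega)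
  have y4 := a_GLOW n d m i g a Q 𝓕 hA hs hg (le_trans (r2.trans
    (Hull.choose_le_of (show f + 3 ≤ g + 1 by omega) (by omega))) (Nat.le_mul_of_pos_left _ b1))
  have r3 : K * (1 + 2 * j).choose j * Q ≤ q - 2 - f := by
    by_contra h0
    have r4 : K * (1 + 2 * j).choose j * Q ≤ K * (1 + 2 * j).choose j * (2 * (Q - 1)) :=
      Nat.mul_le_mul_left _ (by omega)
    have r5 := hQ (Q - 1) (by linarith [show n ≤ 2 * (q - 2 - f) by omega])
    have r6 : (Q - 1).choose (f + 2) ≤ _ := Nat.le_mul_of_pos_left _ c1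
    omega
  have r4 := ble (n := n) (t := 1) (d := d) (i := j + 1) (e := f + 1) (q := q - 2) (by omega)
    (by omega)
  have r5 : (q - 2).choose (f + 1) ≤ m :=
    (Nat.le_mul_of_pos_left _ (Nat.choose_pos (by omega))).trans (r4.trans hlo.le)
  obtain ⟨N, n1, n2, n3⟩ := one_num (v := (1 + 2 * j).choose j * (j + 1)) i2
    (Nat.le_of_mul_le_mul_left (le_trans (Nat.le_add_right _ _) q7) (by omega)) hlt hU hH hK3 hK4
  refine a_NUMT i j a (f + 2) (g + 1) K m _ _ _ _ _ _ _ _ Q (Q.choose (f + 1)) i3 (by omega)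
    (by omega) (by omega) c1 (by omega) hK1 hK2 n1 n2 hlt n3 q7 y4 ?_ q6 ?_ q4 ?_
  · have a1 : 4 ^ (a + 1) ≤ 4 ^ (j + 1) := Nat.pow_le_pow_right (by omega) (by omega)
    have a2 := Nat.choose_succ_right_eq (q - 2) f
    have a3 := q8.trans (Nat.mul_le_mul_right _ (Nat.mul_le_mul_left 2 a1))
    calc _ ≤ K * ((1 + 2 * j).choose j * Q * (2 * 4 ^ (j + 1) * (q - 2).choose f)) := by gcongr
      _ = 2 * 4 ^ (j + 1) * ((q - 2).choose f * (K * (1 + 2 * j).choose j * Q)) := by ring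
      _ ≤ 2 * 4 ^ (j + 1) * ((q - 2).choose f * (q - 2 - f)) := by gcongr
      _ = 2 * 4 ^ (j + 1) * (f + 1) * (q - 2).choose (f + 1) := by rw [← a2]; ring
      _ ≤ _ := by gcongr <;> omega
  · refine le_trans ?_ (Hull.choose_le_of (show 1 ≤ f + 1 by omega) (by omega))
    rw [Nat.choose_one_right]
    omega
  · calc _ ≤ (1 + 2 * j).choose j * (Q.choose (f + 1) * (Q - (f + 1))) * (Q - (f + 2)) := by
          rw [sq, ← mul_assoc, ← mul_assoc]
          gcongr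
          omega
      _ = (f + 2) * ((1 + 2 * j).choose j * (Q.choose (f + 2) * (Q - (f + 2)))) := by
          rw [← s2]; ring
      _ = (f + 2) * Q * ((1 + 2 * j).choose j * (Q - 1).choose (f + 2)) := by rw [← s4]; ring
      _ ≤ (f + 2) * Q * m := by gcongr
      _ = _ := by ring

lemma one_t {n d j m f q K K' : ℕ} {𝓕 : Finset (Finset ℕ)} (hS : St n 1 d j m (f + 2) q)
    (hA : Adm n (1 + d) 1 m 𝓕) (hs : Shifted 𝓕)
    (hlt : (shadow 𝓕).card < (shadow (colexInit (frankl n (1 + d) 1 j) m)).card)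
    (hK1 : 10 ^ 7 * (j + 1) ^ 4 * (1 + 2 * j).choose j ≤ K)
    (hK2 : 10 ^ 4 * (j + 1) ^ 2 * 4 ^ (j + 1) ≤ K)
    (hK3 : 14 * K * ((1 + 2 * (j + 1)).choose (j + 1) * (j + 1 + 1)) ≤ K') (hK4 : K ≤ K')
    (hK5 : (2 * (d - j) + 1) * (10 * (1 + 2 * j).choose j * (j + 1) +
      2 * (1 + 2 * j).choose j * (1 + j) + 1) < K')
    (hU : K' * (j + 1) * (shadow (colexInit (frankl n (1 + d) 1 j) m)).card ≤
      K' * (1 + j) * m + 5 * (j + 1) * m)
    (hH : K' * (sm n 1 d j).card ≤ m) (hq : 9 * (d + 1) ≤ q)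
    (hm : 2 ^ (1 + 2 * j + (K * (f + 3) + (f + 3))) < m)
    (hQ : ∀ y, n ≤ 4 * (K * (1 + 2 * j).choose j) * y → m < y.choose (f + 2)) :
    𝓕 ⊆ frankl n (1 + d) 1 j := by
  have hd := hS.hd
  have hlo := hS.lo
  have hU' : K' * (shadow (colexInit (frankl n (1 + d) 1 j) m)).card ≤ (K' + 5) * m :=
    Nat.le_of_mul_le_mul_left (c := j + 1) (by linarith) j.succ_pos
  obtain ⟨i, i1, i2⟩ := a_ONE n d m (j + 1) 𝓕 hA hs
  replace i2 := i2.trans (Nat.add_le_add_right (Nat.add_le_add_left (hi_sm hA j) _) _)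
  have w1 : 1 ≤ (1 + 2 * (j + 1)).choose (j + 1) * (j + 1 + 1) :=
    Nat.mul_pos (Nat.choose_pos (by omega)) (by omega)
  have k1 : 1 ≤ K := le_trans (Nat.succ_le_of_lt (by positivity)) hK2
  have w2 := Nat.mul_le_mul_right ((1 + 2 * (j + 1)).choose (j + 1) * (j + 1 + 1))
    (show 14 ≤ 14 * K by omega)
  have o7 := GDO_half i2 (by omega) hlt hU' (w2.trans hK3) w1
  have o8 : 3 * (sm n 1 d j).card ≤ m := (Nat.mul_le_mul_right _ (by omega)).trans hH
  obtain ⟨F, hF, hF'⟩ : ∃ F ∈ (cls 1 d i 𝓕).filter fun F => Fu 1 i 𝓕 F, F ∉ sm n 1 d j :=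
    exists_mem_notMem_of_card_lt_card (by omega)
  obtain ⟨f1, f2⟩ := mem_filter.1 hF
  obtain ⟨f3, f4⟩ := mem_cls.1 f1
  rcases i1.eq_or_lt with rfl | i3
  · have h7 := COEX_same (x := 2 * (d - (j + 1))) f4
    rw [show 1 + 2 * (j + 1) + 2 * (d - (j + 1)) = 1 + 2 * d by omega] at h7
    have h8 := COEX_low (t := 1) (c := j + 1) (p := 1 + j) F (by omega)
    refine absurd (by omega) (no_far hS hA hs f2 ?_)
    rw [h7]
    exact not_lt.1 fun h9 => hF' (mem_big.2 ⟨hA.sub F f3, hA.card_eq F f3, by omega⟩)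
  rcases (Nat.le_of_lt_succ i3).eq_or_lt with rfl | i4
  · obtain ⟨g1, g2⟩ := a_COEX n 1 d m i 𝓕 F le_rfl hA hs f1 f2
    exact beta le_rfl (by omega) hA hs (by omega) (Or.inr g1)
      (fun W hW => Or.inl (g2 W (mem_filter.1 hW).1)) hlt hU hH hK5
  · exact (one_low hS hA hs hlt hK1 hK2 ((Nat.mul_le_mul_right _ (by omega)).trans hK3) hK4 hU' hH
      hq hm hQ i4 f1 f2 i2).elim

/-- The condition on the size. -/
def Crit (t j a m : ℕ) : Prop := ∀ u, 1 ≤ u → u ≤ j →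
  ((t + j) * (j + 2) * (j + 1 - u) + u * (t - 1)) * ((t + 2 * j + 2).choose (j + 1) -
      ((t + j + u - 1).choose (j + 1) - (t + j + u - 1).choose (j - 1))) * a ≤
    (t + j) * (j + 2) * (j + 1 - u) * (t + 2 * j + 2).choose (j + 1) * m

theorem core (t j f : ℕ) : ∃ n₀, ∀ n, n₀ ≤ n → ∀ d m q, St n t d j m (f + 2) q →
    (j ≤ 4 ∨ j * (j + 3) < t ∨ Crit t j (frankl n (t + d) t (j + 1)).card m) →
    ∀ 𝓕, Adm n (t + d) t m 𝓕 →
    (shadow (colexInit (frankl n (t + d) t j) m)).card ≤ (shadow 𝓕).card := by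
  obtain ⟨K, hK1, hK2⟩ : ∃ K, 10 ^ 7 * (j + 1) ^ 4 * (1 + 2 * j).choose j ≤ K ∧
      10 ^ 4 * (j + 1) ^ 2 * 4 ^ (j + 1) ≤ K := ⟨_, le_max_left _ _, le_max_right _ _⟩
  obtain ⟨K', hK3, hK4, hK5, hK6, hK7, hK8⟩ : ∃ K',
      14 * K * ((1 + 2 * (j + 1)).choose (j + 1) * (j + 1 + 1)) ≤ K' ∧ K ≤ K' ∧
      (2 * (f + 2) + 1) * (10 * (t + 2 * j).choose j * (j + 1) +
        2 * (t + 2 * j).choose j * (t + j) + 1) < K' ∧
      (t + 2 * (j + 1)).choose (j + 1) * (j + 1) * (j + 2) * (5 * j + t) < K' ∧ 2 ≤ K' ∧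
      (t + j) * (j + 2) * (j + 1) *
        ((t + 2 * (j + 1)).choose (j + 1) * (j + 2) * (j + 1) * (6 * j + t)) < K' :=
    ⟨14 * K * ((1 + 2 * (j + 1)).choose (j + 1) * (j + 1 + 1)) + K +
      (2 * (f + 2) + 1) * (10 * (t + 2 * j).choose j * (j + 1) +
        2 * (t + 2 * j).choose j * (t + j) + 1) +
      (t + 2 * (j + 1)).choose (j + 1) * (j + 1) * (j + 2) * (5 * j + t) + 2 +
      (t + j) * (j + 2) * (j + 1) *
        ((t + 2 * (j + 1)).choose (j + 1) * (j + 2) * (j + 1) * (6 * j + t)),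
      by omega, by omega, by omega, by omega, by omega, by omega⟩
  obtain ⟨L, l1, l2, l3, l4⟩ : ∃ L,
      K' * ((t + (j + (f + 2)) + 1) * 2 ^ (t + 2 * (j + (f + 2)))) ≤ L ∧
      2 ^ (t + 2 * j + (K' * (f + 2) + (f + 2))) ≤ L ∧ K' * (t + j) * (t + 2 * j).choose j ≤ L ∧
      2 ^ (t + 2 * j + (K * (f + 3) + (f + 3))) ≤ L :=
    ⟨_, le_max_left _ _, (le_max_left _ _).trans (le_max_right _ _),
      ((le_max_left _ _).trans (le_max_right _ _)).trans (le_max_right _ _),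
      ((le_max_right _ _).trans (le_max_right _ _)).trans (le_max_right _ _)⟩
  obtain ⟨n₁, h₁⟩ := asy L 2 f
  obtain ⟨n₂, h₂⟩ := asy (10 ^ 8 * (t + j) ^ 4 * (t + 2 * j).choose j *
    ((t + (j + (f + 2)) + 1) * 2 ^ (t + 2 * (j + 1)))) (4 * (K * (1 + 2 * j).choose j)) (f + 1)
  refine ⟨n₁ + n₂ + 2 * (t + 2 * j + 2) + 9 * (j + (f + 2) + 1), fun n hn₀ d m q hS ht 𝓕 h => ?_⟩
  by_cases hm : 10 ^ 8 * (t + j) ^ 4 * (t + 2 * j).choose j *
      (frankl n (t + d) t (j + 1)).card ≤ m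
  · exact p_EXDK a_EXY a_GDT a_GDO _ _ _ _ _ _ _ hS hm 𝓕 h
  obtain ⟨𝓖, g1, g2, g3⟩ := exists_shifted h
  refine le_trans (not_lt.1 fun hlt => ?_) g3
  have hn := hS.hn
  have hlo := hS.lo
  have hq := hS.hq
  obtain rfl := hS.hd
  have a1 := h₁ n (by omega) (q - 2) (by omega)
  have a2 := ble (n := n) (t := t) (d := j + (f + 2)) (i := j + 1) (e := f + 1) (q := q - 2)
    (by omega) (by omega)
  have a3 := (a1.trans ((Nat.le_mul_of_pos_left _ (Nat.choose_pos (by omega))).trans a2)).trans_lt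
    hlo
  have a4 := (Nat.le_mul_of_pos_right _ (Nat.pow_pos (show 0 < n by omega))).trans_lt a3
  have a5 : K' * (sm n t (j + (f + 2)) j).card ≤ m := by
    have b1 := big_le (n := n) (k := t + (j + (f + 2))) (w := t + 2 * (j + (f + 2)))
      (c := t + j + 2) (by omega) (by omega)
    rw [show t + (j + (f + 2)) - (t + j + 2) = f by omega] at b1
    refine ((Nat.mul_le_mul_left _ b1).trans ?_).trans a3.le
    rw [← mul_assoc]
    exact Nat.mul_le_mul_right _ l1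
  have a6 := ul hS hK7 (l2.trans_lt a4) (l3.trans a4.le)
  rw [show f + 2 = j + (f + 2) - j by omega] at hK5
  refine absurd (a_KKA n _ t j m 𝓖 ?_ g1.2.2.ge) (not_le.2 hlt)
  rcases hS.t1.eq_or_lt with rfl | t2
  · refine one_t hS g1 g2 hlt hK1 hK2 hK3 hK4 hK5 a6 a5 (by omega) (l4.trans_lt a4) fun y hy => ?_
    have b1 := big_le (n := n) (k := 1 + (j + (f + 2))) (w := 1 + 2 * (j + 1))
      (c := 1 + (j + 1)) (by omega) (by omega)
    rw [show 1 + (j + (f + 2)) - (1 + (j + 1)) = f + 1 by omega] at b1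
    refine ((not_le.1 hm).trans_le ((Nat.mul_le_mul_left _ b1).trans ?_)).trans_le
      (h₂ n (by omega) y hy)
    rw [← mul_assoc]
  rcases ht with ht | ht | ht
  · exact small_j hS g1 g2 t2 ht hlt a6 a5 hK5 hK6 hK8 ((le_trans (Nat.le_mul_of_pos_right _
      (by positivity)) ((Nat.le_mul_of_pos_right _ (Nat.choose_pos (by omega))).trans hK1)).trans hK4)
  · exact big_t hS g1 g2 ht hlt a6 a5 hK5 hK6
  · exact q_chain hS g1 g2 t2 ht hlt a6 a5 hK5 hK8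

/-- One bound for all indices. -/
theorem core_all (k : ℕ) : ∃ n₀, ∀ n, n₀ ≤ n → ∀ t d j m e q, k = t + d → 2 ≤ e →
    (j ≤ 4 ∨ j * (j + 3) < t ∨ Crit t j (frankl n (t + d) t (j + 1)).card m) → St n t d j m e q →
    ∀ 𝓕, Adm n (t + d) t m 𝓕 →
    (shadow (colexInit (frankl n (t + d) t j) m)).card ≤ (shadow 𝓕).card := by
  choose g hg using core
  refine ⟨∑ t ∈ range (k + 1), ∑ j ∈ range (k + 1), g t j (k - t - j - 2),
    fun n hn t d j m e q hk he ht hS => ?_⟩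
  have hd := hS.hd
  obtain ⟨f, rfl⟩ : ∃ f, e = f + 2 := ⟨e - 2, by omega⟩
  refine hg t j f n (le_trans ?_ hn) d m q hS ht
  rw [show f = k - t - j - 2 by omega]
  exact (single_le_sum (f := fun j => g t j (k - t - j - 2)) (fun _ _ => Nat.zero_le _)
    (mem_range.2 (by omega))).trans (single_le_sum
      (f := fun t => ∑ j ∈ range (k + 1), g t j (k - t - j - 2)) (fun _ _ => Nat.zero_le _)
      (mem_range.2 (by omega)))

end Pool.Agent.P.MP_ed1e41_co.XL
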