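import Pool.Agent.P.MP_ed1e41_co.XL.C

/-! The top window. -/

namespace Pool.Agent.P.MP_ed1e41_co.XL

open Finset Pool.Agent.P.MP_ed1e41_co.AS
open scoped Classical

lemma cond_top {t j a w D : ℕ} (hj : j = a + 1 + w) (ht : 2 * j * (j + 3) ≤ t + 1)
    (hD : D + (a + 1) * (t + 1 + j + 1) = (j + 2) * (t + 1)) :
    (a + 1) * t * (t + 1 + 2 * (j + 1)).choose (j + 1) +
        (a + 1) * (j + 2) * ((t + 1 + 2 * j).choose j * (t + 1 + 2 * j + 1)) ≤
      (j + 1) * D * (t + 1 + a + j).choose (j + 1) := by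
  have h1 := pascal (t + 1 + a + j) j (w + 2)
  have h2 := Nat.add_one_mul_choose_eq (t + 1 + a + j + (w + 2)) j
  have h3 := Nat.choose_mul_succ_eq (t + 1 + 2 * j) j
  rw [show t + 1 + a + j + (w + 2) + 1 = t + 1 + 2 * (j + 1) by omega,
    show t + 1 + a + j + (w + 2) = t + 1 + 2 * j + 1 by omega] at h1 h2
  rw [h3, show t + 1 + 2 * j + 1 - j = t + 1 + j + 1 by omega]
  generalize (t + 1 + 2 * (j + 1)).choose (j + 1) = M at *
  generalize (t + 1 + a + j).choose (j + 1) = C at *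
  generalize (t + 1 + 2 * j + 1).choose j = B at *
  obtain ⟨z, hz⟩ := Nat.exists_eq_add_of_le ht
  subst hj
  obtain rfl : t = 2 * (a + w) ^ 2 + 10 * (a + w) + 7 + z := by nlinarith
  obtain rfl : D = 14 + 2*z^1 + 27*w^1 + 1*w^1*z^1 + 14*w^2 + 2*w^3 + 17*a^1 + 17*a^1*w^1 +
      4*a^1*w^2 + 3*a^2 + 2*a^2*w^1 := by nlinarith
  generalize hD' : 14 + 2*z^1 + 27*w^1 + 1*w^1*z^1 + 14*w^2 + 2*w^3 + 17*a^1 + 17*a^1*w^1 +
      4*a^1*w^2 + 3*a^2 + 2*a^2*w^1 = D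
  generalize ht' : 2 * (a + w) ^ 2 + 10 * (a + w) + 7 + z = t at *
  generalize hT : t + 1 + 2 * (a + 1 + w + 1) = T at *
  have h4 : (6 + 1*z^1 + 7*w^1 + 1*w^2 + 9*a^1 + 3*a^1*w^1 + 2*a^2) * M ≤ T * C := by
    have b1 := Nat.mul_le_mul_left T h1
    have b2 : T = 6 + 1*z^1 + 7*w^1 + 1*w^2 + 9*a^1 + 3*a^1*w^1 + 2*a^2 +
        (w + 2 + 1) * (a + 1 + w + 1) := by
      rw [← hT, ← ht']; ring
    have b3 : T * (C + (w + 2 + 1) * B) = T * C + (w + 2 + 1) * (T * B) := by ring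
    rw [b3, h2] at b1
    nth_rewrite 1 [b2] at b1
    linarith
  have h5 : (a + 1) * t * T + (a + 1) * (a + 1 + w + 2) * (a + 1 + w + 1) *
      (t + 1 + (a + 1 + w) + 1) ≤
      (a + 1 + w + 1) * D * (6 + 1*z^1 + 7*w^1 + 1*w^2 + 9*a^1 + 3*a^1*w^1 + 2*a^2) := by
    refine Nat.le.intro (k := 24 + 27*z^1 + 3*z^2 + 284*w^1 + 93*w^1*z^1 + 4*w^1*z^2 + 599*w^2 +
      88*w^2*z^1 + 1*w^2*z^2 + 496*w^3 + 29*w^3*z^1 + 187*w^4 + 3*w^4*z^1 + 32*w^5 + 2*w^6 +
      76*a^1 + 44*a^1*z^1 + 1*a^1*z^2 + 710*a^1*w^1 + 109*a^1*w^1*z^1 + 1*a^1*w^1*z^2 +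
      1097*a^1*w^2 + 64*a^1*w^2*z^1 + 625*a^1*w^3 + 10*a^1*w^3*z^1 + 147*a^1*w^4 + 12*a^1*w^5 +
      71*a^2 + 17*a^2*z^1 + 622*a^2*w^1 + 37*a^2*w^1*z^1 + 691*a^2*w^2 + 11*a^2*w^2*z^1 +
      249*a^2*w^3 + 28*a^2*w^4 + 21*a^3 + 2*a^3*z^1 + 255*a^3*w^1 + 4*a^3*w^1*z^1 + 185*a^3*w^2 +
      32*a^3*w^3 + 2*a^4 + 51*a^4*w^1 + 18*a^4*w^2 + 4*a^5*w^1) ?_
    rw [← hT, ← hD', ← ht']; ring
  refine Nat.le_of_mul_le_mul_left (c := T) ?_ (by omega)
  have h6 := Nat.mul_le_mul_left ((a + 1 + w + 1) * D) h4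
  have h7 := Nat.mul_le_mul_right M h5
  have h8 := congrArg ((a + 1) * (a + 1 + w + 2) * (t + 1 + (a + 1 + w) + 1) * ·) h2
  linarith

lemma top_num {t j u D G M C c m L N x y Z U : ℕ} (hu : 1 ≤ u) (h2 : m ≤ L + N)
    (h3 : L * (t + 1) ≤ x * u) (h4 : (t + 1 + (j + 1)) * N ≤ (j + 1 + 1) * y) (h5 : x + y ≤ Z)
    (h6 : Z < U) (h7 : N + C ≤ M) (h9 : M ≤ m)
    (h10 : (j + 1) * U ≤ (t + 1 + j) * (m + c) + (j + 1) * c)
    (hD : D + u * (t + 1 + j + 1) = (j + 2) * (t + 1)) (hG : G + u * (t + 1 + j) = (j + 1) * (t + 1))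
    (hc : u * t * M + u * (j + 2) * (c * (t + 1 + 2 * j + 1)) ≤ (j + 1) * D * C) : False := by
  have a1 := Nat.mul_le_mul_left (j + 2) h3
  have a2 := Nat.mul_le_mul_left u h4
  have a3 := Nat.mul_le_mul_left (u * (j + 2)) h5
  have a4 := Nat.mul_le_mul_left ((j + 2) * (t + 1)) h2
  have a5 : (j + 2) * (t + 1) * N = D * N + u * (t + 1 + j + 1) * N := by rw [← hD]; ring
  have b1 : (j + 2) * (t + 1) * m ≤ u * (j + 2) * Z + D * N := by linarith
  have b2 := Nat.mul_le_mul_left (j + 1) b1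
  have b3 := Nat.mul_le_mul_left (u * (j + 2))
    ((Nat.mul_le_mul_left (j + 1) (Nat.succ_le_of_lt h6)).trans h10)
  have b4 := Nat.mul_le_mul_left ((j + 1) * D) h7
  have b5 := Nat.mul_le_mul_left ((j + 2) * G) h9
  have b6 : (j + 2) * G + u * t = (j + 1) * D := by
    have c1 := congrArg ((j + 2) * ·) hG
    have c2 := congrArg ((j + 1) * ·) hD
    linarith
  have b7 := congrArg (· * M) b6
  have b8 := congrArg ((j + 2) * m * ·) hG
  have b9 : 0 < u * (j + 2) * (j + 1) := by positivity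
  rw [Nat.succ_eq_add_one] at b3
  linarith

/-- In the top window a member outside the Frankl family shifts to one of the top class. -/
lemma top_sub {n t m j : ℕ} {𝓕 : Finset (Finset ℕ)} (h : Adm n (t + (j + 1)) t m 𝓕)
    (hs : Shifted 𝓕) (hC : ∀ W ∈ fc t (j + 1) j 𝓕, t + j ≤ (W ∩ range (t + 2 * j)).card) :
    ∀ W ∈ 𝓕, t + j ≤ (W ∩ range (t + 2 * j)).card := by
  intro W hW
  induction hc : ∑ x ∈ W, x using Nat.strong_induction_on generalizing W with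
  | _ S ih =>
    have hk := h.card_eq W hW
    by_cases h0 : W ⊆ range (t + 2 * (j + 1))
    · have h1 := inter_eq_left.2 h0
      exact hC W (mem_filter.2 ⟨mem_cls.2 ⟨hW, le_rfl, by rw [h1, hk], fun i h2 h3 => by omega⟩,
        by rw [h1, hk]⟩)
    obtain ⟨y, y1, y2⟩ := not_subset.1 h0
    rw [mem_range] at y2
    have step : ∀ x, x < y → x ∉ W →
        t + j ≤ (insert x (W.erase y) ∩ range (t + 2 * j)).card := fun x h1 h2 =>
      ih _ (by have := sum_shift h2 y1; omega) _ (hs W hW x y h1 y1 h2) rfl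
    have out : ∀ x, x < y → x ∉ W → t + 2 * j ≤ x → t + j ≤ (W ∩ range (t + 2 * j)).card :=
      fun x h1 h2 h3 => (step x h1 h2).trans (card_le_card fun z => by
        simp only [mem_inter, mem_insert, mem_erase, mem_range]
        grind)
    by_cases h1 : t + 2 * j ∈ W
    swap
    · exact out _ (by omega) h1 le_rfl
    by_cases h2 : t + 2 * j + 1 ∈ W
    swap
    · exact out _ (by omega) h2 (by omega)
    have h3 : ({t + 2 * j, t + 2 * j + 1, y} : Finset ℕ).card ≤ (W \ range (t + 2 * j)).card :=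
      card_le_card fun z => by
        simp only [mem_sdiff, mem_insert, mem_singleton, mem_range]
        grind
    rw [card_eq_three.2 ⟨_, _, _, by omega, by omega, by omega, rfl⟩] at h3
    have h4 := card_head_tail W (t + 2 * j)
    have h5 := card_range_sdiff W (t + 2 * j)
    obtain ⟨x, hx⟩ := card_pos.1 (show 0 < (range (t + 2 * j) \ W).card by omega)
    obtain ⟨x1, x2⟩ := mem_sdiff.1 hx
    have h6 := (step x (by have := mem_range.1 x1; omega) x2).trans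
      (card_le_card (t := insert x (W ∩ range (t + 2 * j))) fun z => by
        simp only [mem_inter, mem_insert, mem_erase, mem_range]
        grind)
    have h7 := card_insert_le x (W ∩ range (t + 2 * j))
    omega

theorem top {n t d j m q : ℕ} (hS : St n t d j m 1 q) (ht : 2 * j * (j + 3) ≤ t)
    (𝓕 : Finset (Finset ℕ)) (h : Adm n (t + d) t m 𝓕) :
    (shadow (colexInit (frankl n (t + d) t j) m)).card ≤ (shadow 𝓕).card := by
  obtain ⟨𝓖, g1, g2, g3⟩ := exists_shifted h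
  refine le_trans (not_lt.1 fun hlt => ?_) g3
  have hn := hS.hn
  have hlo := hS.lo
  have hq := hS.hq
  have t1 := hS.t1
  obtain rfl := hS.hd
  obtain ⟨t, rfl⟩ : ∃ t', t = t' + 1 := ⟨t - 1, by omega⟩
  have a1 := a_UPM n n (t + 1) (j + 1) j m 0 0 ((t + 1 + 2 * j).choose j) (j + 1) t1 (by omega)
    le_rfl (by omega) (by omega) (by omega) hS.hi fun r hr => choose_anti (by omega) (by omega)
  rw [add_zero, show t + 1 + (j + 1) - 1 = t + 1 + j by omega, Hull.big_top (by omega),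
    cc_symm] at a1
  have a2 : (sm n (t + 1) (j + 1) j).card = 0 := by
    rw [card_eq_zero, eq_empty_iff_forall_notMem]
    intro W hW
    obtain ⟨-, b1, b2⟩ := mem_big.1 hW
    have := card_tr_le' W (t + 1 + 2 * (j + 1))
    omega
  have a3 := ble (n := n) (t := t + 1) (d := j + 1) (i := j + 1) (e := 0) (q := q - 2) (by omega)
    (by omega)
  rw [Nat.choose_zero_right, mul_one] at a3
  refine absurd (a_KKA n _ (t + 1) j m 𝓖 (fun W hW => mem_frankl.2 ⟨g1.sub W hW, g1.card_eq W hW,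
    top_sub g1 g2 (chain hS g1 g2 fun a w L N x y κ hj b1 b2 b3 b4 b5 b6 => ?_) W hW⟩)
    g1.2.2.ge) (not_le.2 hlt)
  obtain ⟨D, hD⟩ : ∃ D, D + (a + 1) * (t + 1 + j + 1) = (j + 2) * (t + 1) :=
    ⟨_, Nat.sub_add_cancel (by subst hj; nlinarith)⟩
  obtain ⟨G, hG⟩ : ∃ G, G + (a + 1) * (t + 1 + j) = (j + 1) * (t + 1) :=
    ⟨_, Nat.sub_add_cancel (by subst hj; nlinarith)⟩
  rw [Nat.sub_self, Nat.choose_zero_right, mul_one] at b5
  rw [a2, add_zero] at b1
  exact top_num (by omega) b1 b2 b3 b4 hlt (by omega) (a3.trans hlo.le) a1 hD hG (cond_top hj ht hD)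

end Pool.Agent.P.MP_ed1e41_co.XL
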