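import Pool.Agent.P.MP_ed1e41_co.XL.E

/-! The chain of Frankl families with shifted thresholds. -/

namespace Pool.Agent.P.MP_ed1e41_co.XL

open Finset Pool.Agent.P.MP_ed1e41_co.AS
open scoped Classical

/-- Walks that reach a given height. -/
lemma ballot (t x : ℕ) : ∀ a b, a + b = x + t → a ≤ b →
    (((range x).powersetCard a).filter fun G => ∃ p, p ≤ x ∧ p + t ≤ 2 * (G ∩ range p).card).card ≤
      x.choose b := by
  induction x with
  | zero =>
    intro a b h1 h2
    rcases h2.eq_or_lt with rfl | h2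
    · exact (card_filter_le _ _).trans (by rw [card_powersetCard, card_range])
    · rw [eq_empty_of_forall_notMem (s := filter _ _) fun G hG => by
        obtain ⟨-, p, h3, h4⟩ := mem_filter.1 hG
        have := card_tr_le G p
        omega, card_empty]
      exact Nat.zero_le _
  | succ x ih =>
    intro a b h1 h2
    rcases h2.eq_or_lt with rfl | h2
    · exact (card_filter_le _ _).trans (by rw [card_powersetCard, card_range])
    obtain ⟨b, rfl⟩ : ∃ b', b = b' + 1 := ⟨b - 1, by omega⟩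
    rw [Nat.choose_succ_succ', ← card_filter_add_card_filter_not (fun G => x ∉ G)]
    have key : ∀ G ∈ ((range (x + 1)).powersetCard a).filter
        fun G => ∃ p, p ≤ x + 1 ∧ p + t ≤ 2 * (G ∩ range p).card,
        G.erase x ⊆ range x ∧ G.card = a ∧ ∃ p, p ≤ x ∧ p + t ≤ 2 * (G.erase x ∩ range p).card := by
      intro G hG
      obtain ⟨h3, p, h4, h5⟩ := mem_filter.1 hG
      obtain ⟨h6, h7⟩ := mem_powersetCard.1 h3
      have h8 := card_tr_le' G p
      refine ⟨fun z hz => ?_, h7, p, by omega, ?_⟩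
      · have := mem_range.1 (h6 (mem_of_mem_erase hz))
        have := ne_of_mem_erase hz
        exact mem_range.2 (by omega)
      · rwa [erase_inter, erase_eq_of_notMem fun h' => by
          have := mem_range.1 (mem_inter.1 h').2
          omega]
    refine Nat.add_le_add (le_trans (card_le_card fun G hG => ?_) (ih a b (by omega) (by omega))) ?_
    · obtain ⟨h3, h4⟩ := mem_filter.1 hG
      obtain ⟨h5, h6, h7⟩ := key G h3
      rw [erase_eq_of_notMem h4] at h5 h7
      exact mem_filter.2 ⟨mem_powersetCard.2 ⟨h5, h6⟩, h7⟩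
    rcases a with _ | a
    · rw [eq_empty_of_forall_notMem (s := filter _ _) fun G hG => by
        obtain ⟨h3, h4⟩ := mem_filter.1 hG
        have := card_pos.2 ⟨x, not_not.1 h4⟩
        have := (key G h3).2.1
        omega, card_empty]
      exact Nat.zero_le _
    refine le_trans (card_le_card_of_injOn (fun G => G.erase x) (fun G hG => ?_)
      fun G hG G' hG' e => ?_) (ih a (b + 1) (by omega) (by omega))
    · obtain ⟨h3, h4⟩ := mem_filter.1 (mem_coe.1 hG)
      obtain ⟨h5, h6, h7⟩ := key G h3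
      have := card_erase_add_one (not_not.1 h4)
      have h8 : (G.erase x).card = a := by omega
      exact mem_coe.2 (mem_filter.2 ⟨mem_powersetCard.2 ⟨h5, h8⟩, h7⟩)
    · have e' : G.erase x = G'.erase x := e
      rw [← insert_erase (not_not.1 (mem_filter.1 (mem_coe.1 hG)).2), e',
        insert_erase (not_not.1 (mem_filter.1 (mem_coe.1 hG')).2)]

/-- The heads that lie in a Frankl family with a smaller threshold. -/
lemma heads' {t j a w : ℕ} (hj : j = a + 1 + w) :
    (((range (t + 1 + 2 * (j + 1))).powersetCard (t + 1 + (j + 1))).filter fun H =>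
        ∃ c, c ≤ j ∧ t - w + c ≤ (H ∩ range (t - w + 2 * c)).card).card ≤
      (t + 1 + 2 * (j + 1)).choose (j + 1) -
        ((t + 1 + a + j).choose (j + 1) - (t + 1 + a + j).choose (j - 1)) := by
  have h0 := card_filter_le ((range (t + 1 + 2 * (j + 1))).powersetCard (t + 1 + (j + 1)))
    fun H => ∃ c, c ≤ j ∧ t - w + c ≤ (H ∩ range (t - w + 2 * c)).card
  rw [card_powersetCard, card_range, cc_symm] at h0
  rcases le_total t w with h | h
  · have := choose_anti (N := t + 1 + a + j) (x := j - 1) (y := j + 1) (by omega) (by omega)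
    omega
  have h1 := heads (t := t) hj
  have h2 := ballot (t - w) (t + 1 + a + j) (t + a) (t - w + j + 1) (by omega) (by omega)
  rw [Nat.choose_symm_of_eq_add (show t + 1 + a + j = t - w + j + 1 + (j - 1) by omega)] at h2
  have h5 := card_filter_add_card_filter_not (s := ((range (t + 1 + 2 * (j + 1))).powersetCard
      (t + 1 + (j + 1))).filter fun H =>
        ∃ c, c ≤ j ∧ t - w + c ≤ (H ∩ range (t - w + 2 * c)).card)
    (fun H => (H ∩ range (t + 1 + a + j)).card + (j + 1) ≤ t + 1 + a + j)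
  have h3 := card_le_card (filter_subset_filter
    (fun H => ¬ (H ∩ range (t + 1 + a + j)).card + (j + 1) ≤ t + 1 + a + j) (filter_subset
      (fun H => ∃ c, c ≤ j ∧ t - w + c ≤ (H ∩ range (t - w + 2 * c)).card)
      ((range (t + 1 + 2 * (j + 1))).powersetCard (t + 1 + (j + 1)))))
  have h4 := card_le_prod (𝓕 := (((range (t + 1 + 2 * (j + 1))).powersetCard
      (t + 1 + (j + 1))).filter fun H =>
        ∃ c, c ≤ j ∧ t - w + c ≤ (H ∩ range (t - w + 2 * c)).card).filter
      fun H => (H ∩ range (t + 1 + a + j)).card + (j + 1) ≤ t + 1 + a + j)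
    (𝓗 := ((range (t + 1 + a + j)).powersetCard (t + a)).filter fun G =>
      ∃ p, p ≤ t + 1 + a + j ∧ p + (t - w) ≤ 2 * (G ∩ range p).card)
    (𝓣 := {Ico (t + 1 + a + j) (t + 1 + 2 * (j + 1))}) (t + 1 + a + j) fun H hH => by
      obtain ⟨b1, b2⟩ := mem_filter.1 hH
      obtain ⟨b3, c, b4, b5⟩ := mem_filter.1 b1
      obtain ⟨b6, b7⟩ := mem_powersetCard.1 b3
      have b8 := card_head_tail H (t + 1 + a + j)
      have b9 := card_le_card (tail_sub (M := t + 1 + a + j) b6)
      rw [Nat.card_Ico] at b9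
      refine ⟨mem_filter.2 ⟨mem_powersetCard.2 ⟨inter_subset_right, by omega⟩, t - w + 2 * c,
        by omega, ?_⟩, mem_singleton.2 (eq_of_subset_of_card_le (tail_sub b6) (by
          rw [Nat.card_Ico]; omega))⟩
      rw [inter_assoc, (inter_eq_right (s := range _)).2 (range_subset_range.2 (by omega))]
      omega
  rw [card_singleton, mul_one] at h4
  generalize (t + 1 + 2 * (j + 1)).choose (j + 1) = M at *
  generalize (t + 1 + a + j).choose (j + 1) = C at *
  generalize (t + 1 + a + j).choose (j - 1) = C' at *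
  omega

/-- A far member below all thresholds forces the lower members above larger thresholds. -/
lemma gamma_low {n t d m j w : ℕ} {𝓕 : Finset (Finset ℕ)} (h : Adm n (t + d) t m 𝓕)
    (hs : Shifted 𝓕) {Y W : Finset ℕ} (hY : Y ∈ 𝓕)
    (h1 : (Y ∩ range (t + 2 * d)).card ≤ t + (j + 1))
    (h2 : ∀ c, c ≤ j → (Y ∩ range (t - w + 2 * c)).card < t - w + c) (hW : W ∈ 𝓕)
    (hW' : ¬ Hi t j W) :
    ∃ c, c < j - w ∧ t + w + 1 + c ≤ (W ∩ range (t + w + 1 + 2 * c)).card := by
  obtain ⟨p, hp⟩ := frankl_lemma hs h.2.1 hY W hW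
  have c1 := card_tr_le' Y p
  have c2 := card_tr_le' W p
  rw [h.card_eq _ hY] at c1
  rw [h.card_eq _ hW] at c2
  have c3 := card_tr_le Y p
  have c4 := card_tr_le W p
  have c5 : (W ∩ range (t + 2 * (j + 1))).card < t + (j + 1) :=
    not_le.1 fun b => hW' ⟨j + 1, by omega, b⟩
  have c6 := h2 0 (Nat.zero_le _)
  have c7 := card_tr_mono Y (show p ≤ t + 2 * d by omega)
  rcases le_total (t + 2 * (j + 1)) p with e | e
  · have := tr_step W e
    omega
  have c8 := card_tr_mono W e
  obtain ⟨g, hg⟩ : ∃ g, p = (Y ∩ range p).card + g := ⟨p - (Y ∩ range p).card, by omega⟩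
  have c9 := h2 g (by omega)
  have d1 : p < t - w + 2 * g := not_le.1 fun e' => by
    have := tr_step Y e'
    omega
  refine ⟨g - w - 1, by omega, ?_⟩
  have := card_tr_mono W (show p ≤ t + w + 1 + 2 * (g - w - 1) by omega)
  omega

lemma gamma_num {t j u w M R κ A a K m L N S x y Z U : ℕ} (hj : j = u + w) (hu : 1 ≤ u)
    (hm : 1 ≤ m) (hM : 1 ≤ M) (h2 : m ≤ L + N + S) (h3 : L * (t + 1 + j) ≤ x * u)
    (h4 : M * ((t + 1 + (j + 1)) * N) + N ≤ M * ((j + 1 + 1) * y)) (h5 : x + y ≤ Z) (h6 : Z < U)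
    (h7 : N ≤ κ * A) (h8 : κ ≤ R) (h9 : M * A ≤ a)
    (hc : ((t + 1 + j) * (j + 2) * (w + 1) + u * t) * R * a ≤
      (t + 1 + j) * (j + 2) * (w + 1) * M * m)
    (h10 : K * (j + 1) * U ≤ K * (t + 1 + j) * m + 5 * (j + 1) * m) (h11 : K * S ≤ m)
    (hK : (t + 1 + j) * (j + 2) * (j + 1) * (M * (j + 2) * (j + 1) * (6 * j + (t + 1))) < K) :
    False := by
  obtain ⟨P, hP⟩ : ∃ P, P = (t + 1 + j) * (j + 2) * (w + 1) := ⟨_, rfl⟩
  obtain ⟨E, hE⟩ : ∃ E, E = P + u * t := ⟨_, rfl⟩
  rw [← hP, ← hE] at hc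
  have p1 : 1 ≤ P := by rw [hP]; exact Nat.succ_le_of_lt (by positivity)
  have p2 : E ≤ (t + 1 + j) * (j + 2) * (j + 1) := by
    rw [hE, hP, hj]
    nlinarith [Nat.zero_le (u * t), Nat.zero_le (u * u), Nat.zero_le (u * w),
      Nat.zero_le (u * t * (u + w)), Nat.zero_le (u * (u + w) * (u + w))]
  have a1 : E * N ≤ P * m := by
    refine Nat.le_of_mul_le_mul_left (c := M) ?_ hM
    have c1 := Nat.mul_le_mul_left (E * M) (h7.trans (Nat.mul_le_mul_right A h8))
    have c2 := Nat.mul_le_mul_left (E * R) h9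
    linarith
  obtain ⟨X, hX⟩ := Nat.exists_eq_add_of_le a1
  have a2 := Nat.mul_le_mul_left (M * (j + 1) * (j + 2)) h3
  have a3 := Nat.mul_le_mul_left (u * (j + 1)) h4
  have a4 := Nat.mul_le_mul_left (M * (j + 1) * u * (j + 2)) h5
  have a5 := Nat.mul_le_mul_left (M * (j + 1) * (j + 2) * (t + 1 + j)) h2
  have a6 : M * (j + 1) * (j + 2) * (t + 1 + j) * N =
      M * (E * N) + u * (j + 1) * (M * ((t + 1 + (j + 1)) * N)) := by rw [hE, hP, hj]; ring
  have a7 : M * (j + 1) * (j + 2) * (t + 1 + j) * m =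
      M * u * (j + 2) * (t + 1 + j) * m + M * (P * m) := by rw [hP, hj]; ring
  have a8 : M * (P * m) = M * (E * N) + M * X := by rw [hX]; ring
  have b1 : M * u * (j + 2) * (t + 1 + j) * m + (M * X + u * (j + 1) * N) ≤
      M * u * (j + 2) * ((j + 1) * Z) + M * (j + 1) * (j + 2) * (t + 1 + j) * S := by linarith
  have b2 : m ≤ E * (M * X + u * (j + 1) * N) := by
    have c1 : m ≤ P * m := Nat.le_mul_of_pos_left _ p1
    have c2 : X ≤ E * (M * X) :=
      (Nat.le_mul_of_pos_left _ hM).trans (Nat.le_mul_of_pos_left _ (by omega))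
    have c3 : N ≤ u * (j + 1) * N := Nat.le_mul_of_pos_left _ (by positivity)
    have c4 := Nat.mul_le_mul_left E c3
    linarith
  have b3 := Nat.mul_le_mul_left K b1
  have b4 := Nat.mul_le_mul_left (M * u * (j + 2))
    ((Nat.mul_le_mul_left (K * (j + 1)) h6.le).trans h10)
  have b5 := Nat.mul_le_mul_left (M * (j + 1) * (j + 2) * (t + 1 + j)) h11
  have b6 := Nat.mul_le_mul_right (5 * (M * (j + 2) * (j + 1) * m)) (show u ≤ j by omega)
  have b7 : K * (M * X + u * (j + 1) * N) ≤ M * (j + 2) * (j + 1) * (6 * j + (t + 1)) * m := by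
    linarith
  have b8 := Nat.mul_le_mul_left K b2
  have b9 := Nat.mul_le_mul p2 b7
  have c1 := Nat.mul_lt_mul_of_lt_of_le hK (le_refl m) hm
  linarith

lemma q_chain {n t d m j e q K U : ℕ} {𝓕 : Finset (Finset ℕ)} (hS : St n t d j m e q)
    (h : Adm n (t + d) t m 𝓕) (hs : Shifted 𝓕) (ht : 2 ≤ t)
    (hc : ∀ u, 1 ≤ u → u ≤ j → ((t + j) * (j + 2) * (j + 1 - u) + u * (t - 1)) *
        ((t + 2 * j + 2).choose (j + 1) -
          ((t + j + u - 1).choose (j + 1) - (t + j + u - 1).choose (j - 1))) *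
        (frankl n (t + d) t (j + 1)).card ≤
      (t + j) * (j + 2) * (j + 1 - u) * (t + 2 * j + 2).choose (j + 1) * m)
    (hZ : (shadow 𝓕).card < U)
    (hU : K * (j + 1) * U ≤ K * (t + j) * m + 5 * (j + 1) * m) (hs' : K * (sm n t d j).card ≤ m)
    (hK : (2 * (d - j) + 1) * (10 * (t + 2 * j).choose j * (j + 1) +
      2 * (t + 2 * j).choose j * (t + j) + 1) < K)
    (hK' : (t + j) * (j + 2) * (j + 1) *
      ((t + 2 * (j + 1)).choose (j + 1) * (j + 2) * (j + 1) * (6 * j + t)) < K) :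
    𝓕 ⊆ frankl n (t + d) t j := by
  have hd := hS.hd
  have hn := hS.hn
  have e1 := hS.e1
  have hq := hS.hq
  have hlo := hS.lo
  refine beta hS.t1 (by omega) h hs (by omega) (Or.inl ht) (fun W hW => ?_) hZ hU hs' hK
  have key : ∀ v, v ≤ j → ∀ Y ∈ fc t d j 𝓕,
      ∃ c, c ≤ j ∧ t - (j - v) + c ≤ (Y ∩ range (t - (j - v) + 2 * c)).card := by
    intro v
    induction v with
    | zero =>
      intro _ Y hY
      have := no_far hS h hs (mem_cls.1 (mem_filter.1 hY).1).1 (mem_filter.1 hY).2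
      rcases le_total t j with e | e
      · exact ⟨0, Nat.zero_le _, by omega⟩
      · refine ⟨j, le_rfl, ?_⟩
        rw [show t - (j - 0) + 2 * j = t + j by omega]
        omega
    | succ a ih =>
      intro ha Y hY
      by_contra hY'
      obtain ⟨w, hw⟩ : ∃ w, j = a + 1 + w := ⟨j - (a + 1), by omega⟩
      obtain ⟨t, rfl⟩ : ∃ t', t = t' + 1 := ⟨t - 1, by omega⟩
      rw [show j - (a + 1) = w by omega] at hY'
      obtain ⟨L, x, a1, a2, a3, a4⟩ := comb (α := t + 1 + j) (β := a + 1)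
        (𝓗 := ((range (t + 1 + 2 * (j + 1))).powersetCard (t + 1 + (j + 1))).filter fun H =>
          ∃ c, c ≤ j ∧ t - w + c ≤ (H ∩ range (t - w + 2 * c)).card) hS h hs (fun 𝒮 h𝒮 => by
          have b1 := walk_pay (t + 1 + w) (a + 1) _ 𝒮 (fun W hW => by
            have := gamma_low (w := w) h hs (mem_cls.1 (mem_filter.1 hY).1).1 (mem_filter.1 hY).2
              (fun c hc => not_le.1 fun b => hY' ⟨c, hc, b⟩) (mem_filter.1 hW).1 (mem_filter.1 hW).2
            rwa [show j - w = a + 1 by omega] at this)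
            fun W hW z hz hz' => h𝒮 W hW z hz (by omega)
          rwa [show t + 1 + w + (a + 1) = t + 1 + j by omega] at b1) fun F hF => by
          obtain ⟨c, c1, c2⟩ := ih (by omega) F hF
          rw [show t + 1 - (j - a) = t - w by omega] at c2
          refine mem_filter.2 ⟨mem_powersetCard.2 ⟨inter_subset_right,
            (mem_cls.1 (mem_filter.1 hF).1).2.2.1⟩, c, c1, ?_⟩
          rwa [inter_assoc, (inter_eq_right (s := range _)).2 (range_subset_range.2 (by omega))]
      have a5 : (fc (t + 1) d j 𝓕).card ≤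
          ((cls (t + 1) d (j + 1) 𝓕).filter fun F => ¬ Fu (t + 1) (j + 1) 𝓕 F).card := by
        refine card_le_card fun F hF => mem_filter.2 ⟨(mem_filter.1 hF).1, fun f2 => ?_⟩
        have h7 := COEX_same (x := 2 * (d - (j + 1))) (mem_cls.1 (mem_filter.1 hF).1).2
        rw [show t + 1 + 2 * (j + 1) + 2 * (d - (j + 1)) = t + 1 + 2 * d by omega] at h7
        have h8 := COEX_low (t := t + 1) (c := j + 1) (p := t + 1 + j) F (by omega)
        exact no_far hS h hs f2 (h7 ▸ (mem_filter.1 hF).2) (by omega)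
      have a6 := (Nat.add_le_add (Nat.mul_le_mul_left _ (Nat.mul_le_mul_left _
        (card_filter_le _ fun W => (W ∩ range (t + 1 + 2 * d)).card ≤ t + 1 + (j + 1)))) a5).trans
        (a_CELLN (t + 1) d (j + 1) 𝓕)
      have a7 := ble (n := n) (t := t + 1) (d := d) (i := j + 1) (e := e - 1) (q := q - 2)
        (by omega) (by omega)
      have a8 := hc (a + 1) (by omega) ha
      rw [show j + 1 - (a + 1) = w + 1 by omega, show t + 1 + j + (a + 1) - 1 = t + 1 + a + j by
        omega, show t + 1 + 2 * j + 2 = t + 1 + 2 * (j + 1) by ring, Nat.add_sub_cancel] at a8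
      exact gamma_num hw (by omega) (by omega) (Nat.choose_pos (by omega)) a1 a2 a6 a3 hZ a4
        (heads' hw) a7 a8 hU hs' hK'
  obtain ⟨c, c1, c2⟩ := key j le_rfl W hW
  rw [Nat.sub_self, Nat.sub_zero] at c2
  rcases c1.eq_or_lt with rfl | c1
  · exact Or.inl c2
  · exact Or.inr ⟨ht, c, c1, c2⟩

end Pool.Agent.P.MP_ed1e41_co.XL
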