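import Pool.Agent.P.MP_ed1e41_co.XL.D

/-! Families with a smaller shadow than the colex segment of a Frankl family. -/

namespace Pool.Agent.P.MP_ed1e41_co.XL

open Finset Pool.Agent.P.MP_ed1e41_co.AS
open scoped Classical

/-- Sets with `c` points below `N` and at most `h` holes below `x`. -/
def up (n k N c x h : ℕ) : Finset (Finset ℕ) :=
  (lev n k N c).filter fun F => x ≤ (F ∩ range x).card + h

/-- Sets with `c` points below `x` and `r` points in `[N, N')`. -/
def lo (x c N N' r : ℕ) : Finset (Finset ℕ) :=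
  ((range N').powersetCard (c + r)).filter fun F =>
    (F ∩ range x).card = c ∧ F \ range x ⊆ Ico N N'

lemma card_up {n N q c e x h : ℕ} (hn : n = N + q) (hx : x ≤ N) :
    (up n (c + e) N c x h).card = (up N c N c x h).card * q.choose e := by
  have e2 : q.choose e = ((Ico N n).powersetCard e).card := by
    rw [card_powersetCard, Nat.card_Ico, hn, Nat.add_sub_cancel_left]
  have e3 : ∀ F : Finset ℕ, F ∩ range N ∩ range x = F ∩ range x := fun F => by
    rw [inter_assoc, (inter_eq_right (s := range _)).2 (range_subset_range.2 hx)]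
  rw [e2]
  refine le_antisymm (card_le_prod N fun F hF => ?_) (prod_le_card N
    (fun H h => (mem_lev.1 (mem_filter.1 h).1).1)
    (fun T h y hy => (mem_Ico.1 ((mem_powersetCard.1 h).1 hy)).1) fun H hH T hT => ?_)
  · obtain ⟨h1, h2⟩ := mem_filter.1 hF
    rw [mem_lev] at h1
    have := card_head_tail F N
    exact ⟨mem_filter.2 ⟨mem_lev.2 ⟨inter_subset_right, h1.2.2, by
      rw [inter_assoc, inter_self, h1.2.2]⟩, by rwa [e3]⟩,
      mem_powersetCard.2 ⟨tail_sub h1.1, by omega⟩⟩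
  · obtain ⟨h1, h2⟩ := mem_filter.1 hH
    rw [mem_lev] at h1
    rw [mem_powersetCard] at hT
    have h3 : ∀ y ∈ T, N ≤ y := fun y hy => (mem_Ico.1 (hT.1 hy)).1
    refine mem_filter.2 ⟨mem_lev.2 ⟨union_subset (h1.1.trans (range_subset_range.2 (by omega)))
      (hT.1.trans (Hull.Ico_sub N n)), by rw [card_union_ht h1.1 h3, h1.2.1, hT.2],
      by rw [union_head h1.1 h3, h1.2.1]⟩, ?_⟩
    rwa [← e3, union_head h1.1 h3]

lemma card_up' {N c x h : ℕ} (hx : x ≤ N) (hc : c + (h + 1) = N) :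
    (up N c N c x h).card + x.choose (h + 1) = N.choose (h + 1) := by
  have h2 := card_filter_add_card_filter_not (s := lev N c N c)
    fun F => x ≤ (F ∩ range x).card + h
  have h3 := card_lev (n := N) (M := N) (q := 0) (c := c) (e := 0) rfl
  rw [Nat.choose_self, mul_one, add_zero, Nat.choose_symm_of_eq_add hc.symm] at h3
  rw [← h3, ← h2, up]
  congr 1
  rcases lt_or_ge x (h + 1) with e | e
  · rw [Nat.choose_eq_zero_of_lt e, eq_comm, card_eq_zero, filter_eq_empty_iff]
    intro F _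
    omega
  have h1 := card_lev (n := N) (M := x) (q := N - x) (c := x - (h + 1)) (e := N - x) (by omega)
  rw [Nat.choose_self, mul_one, Nat.choose_symm e, show x - (h + 1) + (N - x) = c by omega] at h1
  rw [← h1]
  congr 1
  ext F
  rw [mem_filter, mem_lev, mem_lev]
  refine ⟨fun b => ⟨⟨b.1, b.2.1, by rw [inter_eq_left.2 b.1, b.2.1]⟩, by omega⟩,
    fun b => ⟨b.1.1, b.1.2.1, ?_⟩⟩
  have := tr_step F hx
  omega

lemma card_lo {x c N Q r : ℕ} (hx : x ≤ N) :
    (lo x c N (N + Q) r).card = x.choose c * Q.choose r := by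
  have e1 : x.choose c = ((range x).powersetCard c).card := by rw [card_powersetCard, card_range]
  have e2 : Q.choose r = ((Ico N (N + Q)).powersetCard r).card := by
    rw [card_powersetCard, Nat.card_Ico, Nat.add_sub_cancel_left]
  rw [e1, e2]
  refine le_antisymm (card_le_prod x fun F hF => ?_) (prod_le_card x
    (fun H h => (mem_powersetCard.1 h).1)
    (fun T h y hy => hx.trans (mem_Ico.1 ((mem_powersetCard.1 h).1 hy)).1) fun H hH T hT => ?_)
  · obtain ⟨h1, h2, h3⟩ := mem_filter.1 hF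
    have := card_head_tail F x
    have := (mem_powersetCard.1 h1).2
    exact ⟨mem_powersetCard.2 ⟨inter_subset_right, h2⟩, mem_powersetCard.2 ⟨h3, by omega⟩⟩
  · rw [mem_powersetCard] at hH hT
    have h3 : ∀ y ∈ T, x ≤ y := fun y hy => hx.trans (mem_Ico.1 (hT.1 hy)).1
    refine mem_filter.2 ⟨mem_powersetCard.2 ⟨union_subset (hH.1.trans (range_subset_range.2
      (by omega))) (hT.1.trans (Hull.Ico_sub _ _)), by rw [card_union_ht hH.1 h3, hH.2, hT.2]⟩,
      by rw [union_head hH.1 h3, hH.2], by rw [union_tail hH.1 h3]; exact hT.1⟩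

lemma shadow_up {n k N c x h : ℕ} :
    shadow (up n (k + 1) N (c + 1) x h) ⊆ up n k N c x (h + 1) ∪ Hull.big n k N (c + 1) := by
  intro G hG
  obtain ⟨F, hF, z, hz, rfl⟩ := mem_shadow_iff.1 hG
  obtain ⟨h1, h2⟩ := mem_filter.1 hF
  obtain ⟨h3, h4, h5⟩ := mem_lev.1 h1
  have h6 := card_erase_add_one hz
  have h7 := (erase_subset z F).trans h3
  rcases lt_or_ge z N with e | e
  · have h8 := card_erase_tr hz e
    have h9 : (F ∩ range x).card - 1 ≤ (F.erase z ∩ range x).card := by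
      rw [erase_inter]
      exact pred_card_le_card_erase
    exact mem_union_left _ (mem_filter.2 ⟨mem_lev.2 ⟨h7, by omega, by omega⟩, by omega⟩)
  · refine mem_union_right _ (mem_big.2 ⟨h7, by omega, ?_⟩)
    rw [erase_inter, erase_eq_of_notMem fun h' => by
      have := mem_range.1 (mem_inter.1 h').2
      omega, h5]

lemma shadow_lo {x c N N' r : ℕ} :
    shadow (lo x (c + 1) N N' (r + 1)) ⊆ lo x c N N' (r + 1) ∪ lo x (c + 1) N N' r := by
  intro G hG
  obtain ⟨F, hF, z, hz, rfl⟩ := mem_shadow_iff.1 hG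
  obtain ⟨h1, h2, h3⟩ := mem_filter.1 hF
  obtain ⟨h4, h5⟩ := mem_powersetCard.1 h1
  have h6 := card_erase_add_one hz
  have h7 := (erase_subset z F).trans h4
  have h8 := (sdiff_subset_sdiff (erase_subset z F) (Subset.refl (range x))).trans h3
  rcases lt_or_ge z x with e | e
  · have h9 := card_erase_tr hz e
    exact mem_union_left _ (mem_filter.2 ⟨mem_powersetCard.2 ⟨h7, by omega⟩, by omega, h8⟩)
  · refine mem_union_right _ (mem_filter.2 ⟨mem_powersetCard.2 ⟨h7, by omega⟩, ?_, h8⟩)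
    rw [erase_inter, erase_eq_of_notMem fun h' => by
      have := mem_range.1 (mem_inter.1 h').2
      omega, h2]

lemma inter_ge (F G : Finset ℕ) (p : ℕ) :
    (F ∩ range p).card + (G ∩ range p).card ≤ (F ∩ G).card + p := by
  have h1 := card_tr_add F G p
  have h2 := card_tr_le (F ∪ G) p
  have h3 := card_tr_le' (F ∩ G) p
  omega

lemma hyb_num {g s J u v M κ κ' Γ A a m y T T₁ T' S S' K Z U : ℕ} (hJ : J = u + v)
    (hg : 1 ≤ g) (hM : 1 ≤ M)
    (hs : 1 ≤ s) (hv : 1 ≤ v) (ha : 1 ≤ a) (h1 : Γ + J * u * κ' = J * s * κ)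
    (h2 : g * (s * v * M * m) + a ≤ g * (Γ * a)) (h3 : a ≤ M * A + S) (h4 : m = κ * A + y)
    (h5 : Z ≤ κ' * A + S' + (T₁ + T')) (h6 : T₁ * u = T * s) (h7 : T ≤ y + T')
    (h8 : (K + 1) * T' ≤ T) (h9 : K * S ≤ a) (h10 : K * S' ≤ a) (h11 : m * s ≤ U * J)
    (hK : g * (Γ + M * J * u + M * J * (s + u) * Γ) < K) : Z < U := by
  have a1 : m ≤ Γ * a := by
    have : m ≤ s * v * M * m := Nat.le_mul_of_pos_left _ (by positivity)
    exact this.trans (Nat.le_of_mul_le_mul_left ((Nat.le_add_right _ _).trans h2) hg)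
  have a2 : K * T' ≤ Γ * a := by
    have : y ≤ m := by omega
    linarith
  by_contra hlt
  have b1 := Nat.mul_le_mul_left (M * J * u) ((not_lt.1 hlt).trans h5)
  have b2 := Nat.mul_le_mul_left (M * u) h11
  have b3 := congrArg (M * J * ·) h6
  have b4 := Nat.mul_le_mul_left (M * J * s) h7
  have b5 := congrArg (M * A * ·) h1
  have b6 := congrArg (M * J * s * ·) h4
  have b7 := Nat.mul_le_mul_left Γ h3
  have b8 : M * J * s * m = M * u * (m * s) + s * v * M * m := by rw [hJ]; ring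
  have c0 : Γ * a ≤ s * v * M * m + (Γ * S + M * J * u * S' + M * J * (s + u) * T') := by linarith
  have c0' := Nat.mul_le_mul_left g c0
  have c1 : a ≤ g * (Γ * S + M * J * u * S' + M * J * (s + u) * T') := by linarith
  have c2 := Nat.mul_le_mul_left K c1
  have c3 := Nat.mul_le_mul_left (g * Γ) h9
  have c4 := Nat.mul_le_mul_left (g * (M * J * u)) h10
  have c5 := Nat.mul_le_mul_left (g * (M * J * (s + u))) a2
  have c6 := Nat.mul_lt_mul_of_lt_of_le hK (le_refl a) ha
  linarith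

theorem hybrid (t a w f : ℕ) : ∃ n₀, ∀ n, n₀ ≤ n → ∀ j k m, j = a + 1 + w → k = t + 1 + j + f + 2 →
    (frankl n k (t + 1) (j + 1)).card < m →
    (t + 1 + j) * (j + 2) * (w + 1) * (t + 1 + 2 * j + 2).choose (j + 1) * m +
        ((j + 1) * (t + 1 + j) * (j + 2) * (t + 1 + j + a).choose (j + 1) + 1) *
          (frankl n k (t + 1) (j + 1)).card ≤
      (((t + 1 + j) * (j + 2) * (w + 1) + (a + 1) * t) * (t + 1 + 2 * j + 2).choose (j + 1) +
        (j + 1) * (a + 1) * (t + a) * (t + 1 + j + a).choose (j + 1)) *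
        (frankl n k (t + 1) (j + 1)).card →
    m ≤ (frankl n k (t + 1) j).card ∧
      (∀ l, j < l → l ≤ j + f + 2 → (frankl n k (t + 1) l).card < m) ∧
      minShadow n k (t + 1) m < (shadow (colexInit (frankl n k (t + 1) j) m)).card := by
  obtain ⟨j, hj⟩ : ∃ j, j = a + 1 + w := ⟨_, rfl⟩
  obtain ⟨N, hN⟩ : ∃ N, N = t + 1 + 2 * j + 2 := ⟨_, rfl⟩
  obtain ⟨x, hx⟩ : ∃ x, x = t + 1 + j + a := ⟨_, rfl⟩
  obtain ⟨G, hG⟩ : ∃ G, G = (j + 1) * (t + 1 + j) * N.choose (j + 1) := ⟨_, rfl⟩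
  obtain ⟨K, hK, hK'⟩ : ∃ K, (j + 2) * (G + N.choose (j + 1) * (j + 1) * (a + 1) +
      N.choose (j + 1) * (j + 1) * (t + 1 + j + (a + 1)) * G) < K ∧ 1 ≤ K := ⟨_, Nat.lt_succ_self _,
        Nat.succ_pos _⟩
  obtain ⟨n₁, h₁⟩ := asy (K * ((t + 1 + j + f + 2 + 1) * 2 ^ N) +
    x.choose (t + j + 1) * 2 ^ ((K + 1) * (f + 2) + (f + 2))) 2 f
  obtain ⟨n₂, h₂⟩ := asy (G * ((t + 1 + j + f + 2 + 1) * 2 ^ N)) 2 (f + 1)
  refine ⟨n₁ + n₂ + 2 * N + 2 * f + 5, fun n hn j' k m hj' hk hlo hc => ?_⟩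
  obtain rfl : j = j' := by omega
  obtain ⟨q, hq⟩ : ∃ q, n = N + q := ⟨n - N, by omega⟩
  rw [← hN, ← hx] at hc
  have hxN : x ≤ N := by omega
  have n0 : 1 ≤ n := by omega
  have a1 := h₁ n (by omega) q (by omega)
  have a2 := h₂ n (by omega) q (by omega)
  have k1 := card_up' (c := t + j + 1 + 1) (h := j) hxN (by omega)
  have k2 := card_up' (c := t + j + 1) (h := j + 1) hxN (by omega)
  have k3 := card_up (c := t + j + 1 + 1) (e := f + 1) (h := j) hq hxN
  have k4 := card_up (c := t + j + 1) (e := f + 1) (h := j + 1) hq hxN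
  have k5 := ble (n := n) (t := t + 1) (d := j + f + 2) (i := j + 1) (e := f + 1) (q := q)
    (by omega) (by omega)
  rw [show t + 1 + (j + f + 2) = k by omega, show t + 1 + 2 * (j + 1) = N by omega] at k5
  have m1 : 1 ≤ N.choose (j + 1) := Nat.choose_pos (by omega)
  have x1 : 1 ≤ x.choose (j + 1) := Nat.choose_pos (by omega)
  have x2 : 1 ≤ x.choose (t + j + 1) := Nat.choose_pos (by omega)
  have p1 : 1 ≤ n ^ f := Nat.pow_pos n0
  have s1 := big_le (n := n) (k := k) (w := N) (c := t + j + 1 + 1 + 1) (by omega) n0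
  have s2 := big_le (n := n) (k := t + j + 1 + (f + 1)) (w := N) (c := t + j + 1 + 1) (by omega) n0
  have s3 := big_le (n := n) (k := k) (w := N) (c := t + j + 1 + 1) (by omega) n0
  rw [show k - (t + j + 1 + 1 + 1) = f by omega] at s1
  rw [show t + j + 1 + (f + 1) - (t + j + 1 + 1) = f by omega] at s2
  rw [show k - (t + j + 1 + 1) = f + 1 by omega] at s3
  have s4 : (frankl n k (t + 1) (j + 1)).card ≤ (Hull.big n k N (t + j + 1 + 1)).card :=
    card_le_card fun F hF => by
      obtain ⟨b1, b2, b3⟩ := mem_frankl.1 hF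
      rw [show t + 1 + 2 * (j + 1) = N by omega] at b3
      exact mem_big.2 ⟨b1, b2, by omega⟩
  have s5 : (frankl n k (t + 1) (j + 1)).card ≤ N.choose (j + 1) * q.choose (f + 1) +
      (Hull.big n k N (t + j + 1 + 1 + 1)).card := by
    have b0 := card_lev (c := t + j + 1 + 1) (e := f + 1) hq
    rw [Nat.choose_symm_of_eq_add (show N = t + j + 1 + 1 + (j + 1) by omega),
      show t + j + 1 + 1 + (f + 1) = k by omega] at b0
    rw [← b0]
    refine le_trans (card_le_card fun F hF => ?_) (card_union_le _ _)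
    obtain ⟨b1, b2, b3⟩ := mem_frankl.1 hF
    rw [show t + 1 + 2 * (j + 1) = N by omega] at b3
    rw [mem_union, mem_lev, mem_big]
    by_cases e : (F ∩ range N).card = t + j + 1 + 1
    · exact Or.inl ⟨b1, b2, e⟩
    · exact Or.inr ⟨b1, b2, by omega⟩
  have k6 := ble (n := n) (t := t + 1) (d := j + f + 2) (i := j) (e := f + 1 + 1) (q := q + 2)
    (by omega) (by omega)
  have k7 := a_PZ n (t + 1) (j + f + 2) j (f + 2) (q + 2) (by omega) (by omega) (by omega)
    (by omega) (by omega)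
  rw [show t + 1 + (j + f + 2) = k by omega] at k6 k7
  generalize (frankl n k (t + 1) (j + 1)).card = A at *
  generalize hκ : (up N (t + j + 1 + 1) N (t + j + 1 + 1) x j).card = κ at *
  generalize hκ' : (up N (t + j + 1) N (t + j + 1) x (j + 1)).card = κ' at *
  have A1 : q.choose (f + 1) ≤ A := (Nat.le_mul_of_pos_left _ m1).trans k5
  have A2 : 1 ≤ A := (Nat.choose_pos (by
    by_contra h0
    rw [Nat.choose_eq_zero_of_lt (not_le.1 h0)] at a1
    have : 0 < (K * ((t + 1 + j + f + 2 + 1) * 2 ^ N) +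
      x.choose (t + j + 1) * 2 ^ ((K + 1) * (f + 2) + (f + 2))) * n ^ f := by positivity
    omega)).trans_le A1
  have g1 : (j + 2) * ((t + 1 + j) * (w + 1) * N.choose (j + 1) * m) + A +
      (j + 2) * ((j + 1) * (a + 1) * κ' * A) ≤ (j + 2) * ((j + 1) * (t + 1 + j) * κ * A) := by
    have b1 := congrArg ((j + 2) * (j + 1) * (t + 1 + j) * A * ·) k1
    have b2 := congrArg ((j + 2) * (j + 1) * (a + 1) * A * ·) k2
    have b3 := Nat.choose_succ_right_eq N (j + 1)
    have b4 := Nat.choose_succ_right_eq x (j + 1)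
    rw [show N - (j + 1) = t + j + 2 by omega] at b3
    rw [show x - (j + 1) = t + a by omega] at b4
    have b5 := congrArg ((j + 1) * (a + 1) * A * ·) b3
    have b6 := congrArg ((j + 1) * (a + 1) * A * ·) b4
    have b7 : (j + 2) * (j + 1) * (t + 1 + j) = (t + 1 + j) * (j + 2) * (w + 1) + (a + 1) * t +
      (j + 1) * (a + 1) * (t + j + 2) := by rw [hj]; ring
    have b8 := congrArg (· * (A * N.choose (j + 1))) b7
    linarith
  obtain ⟨Γ, hΓ⟩ : ∃ Γ, Γ + (j + 1) * (a + 1) * κ' = (j + 1) * (t + 1 + j) * κ :=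
    ⟨_, Nat.sub_add_cancel (Nat.le_of_mul_le_mul_right (Nat.le_of_mul_le_mul_left
      ((Nat.le_add_left _ _).trans g1) (by omega)) A2)⟩
  have g2 : (j + 2) * ((t + 1 + j) * (w + 1) * N.choose (j + 1) * m) + A ≤ (j + 2) * (Γ * A) := by
    have := congrArg ((j + 2) * A * ·) hΓ
    linarith
  have g3 : Γ ≤ G := by
    have := Nat.mul_le_mul_left ((j + 1) * (t + 1 + j)) (show κ ≤ N.choose (j + 1) by omega)
    omega
  have g4 : m ≤ q.choose (f + 1 + 1) := by
    have b1 : m ≤ (t + 1 + j) * (w + 1) * N.choose (j + 1) * m :=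
      Nat.le_mul_of_pos_left _ (by positivity)
    have b2 := Nat.mul_le_mul g3 (s4.trans s3)
    have b3 := Nat.le_of_mul_le_mul_left ((Nat.le_add_right _ _).trans g2) (show 0 < j + 2 by omega)
    rw [hk] at b2
    linarith
  have hhi : m ≤ (frankl n k (t + 1) j).card := g4.trans (((Nat.choose_le_choose _ (by omega)).trans
    (Nat.le_mul_of_pos_left _ (Nat.choose_pos (by omega)))).trans k6)
  refine ⟨hhi, fun l h1 h2 => ((k7 (hlo.trans_le hhi)).2 l h1 h2).trans_lt hlo, ?_⟩
  have g5 := congrArg (· * q.choose (f + 1)) k1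
  have g6 := Nat.mul_le_mul_right (q.choose (f + 1)) x1
  obtain ⟨y, hy⟩ : ∃ y, m = κ * q.choose (f + 1) + y := Nat.exists_eq_add_of_le (by linarith)
  have g7 : q.choose (f + 1) < y := by linarith
  have hex : ∃ Q : ℕ, y ≤ x.choose (t + j + 1) * Q.choose (f + 1 + 1) :=
    ⟨q, le_trans (by omega) (Nat.le_mul_of_pos_left _ x2)⟩
  have Q1 := Nat.find_spec hex
  have Q2 : Nat.find hex ≤ q := Nat.find_min' hex
    (le_trans (by omega) (Nat.le_mul_of_pos_left _ x2))
  have Q3 := fun Q => Nat.find_min hex (m := Q)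
  generalize Nat.find hex = Q at *
  have Q4 : (K + 1) * (f + 2) + (f + 2) < Q := by
    have b1 := Nat.mul_le_mul_left (x.choose (t + j + 1)) (Nat.choose_le_two_pow Q (f + 1 + 1))
    have b2 := (Nat.le_mul_of_pos_right _ p1).trans a1
    refine (Nat.pow_lt_pow_iff_right (show 1 < 2 by omega)).1
      (Nat.lt_of_mul_lt_mul_left (a := x.choose (t + j + 1)) ?_)
    exact ((Nat.le_add_left _ _).trans b2).trans_lt (g7.trans_le (Q1.trans b1))
  have Q5 := Nat.mul_le_mul_left (x.choose (t + j + 1))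
    (HIA_step (q := Q) (K := K + 1) (e := f + 2) (y := f + 1) (by omega) (by omega) (by omega))
  have Q6 : x.choose (t + j + 1) * Q.choose (f + 1 + 1) ≤
      y + x.choose (t + j + 1) * Q.choose (f + 1) := by
    obtain ⟨Q, rfl⟩ : ∃ Q', Q = Q' + 1 := ⟨Q - 1, by omega⟩
    have b1 := not_le.1 (Q3 Q (by omega))
    have b2 := Nat.mul_le_mul_left (x.choose (t + j + 1)) 
      (Nat.choose_le_choose (f + 1) (show Q ≤ Q + 1 by omega))
    rw [Nat.choose_succ_succ' Q (f + 1), mul_add]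
    linarith
  have l1 : ∀ F ∈ lo x (t + j + 1) N (N + Q) (f + 1 + 1), F ⊆ range n ∧ F.card = k ∧
      (F ∩ range x).card = t + j + 1 ∧ (F ∩ range N).card ≤ t + j + 1 := fun F hF => by
    obtain ⟨b1, b2, b3⟩ := mem_filter.1 hF
    obtain ⟨b4, b5⟩ := mem_powersetCard.1 b1
    refine ⟨b4.trans (range_subset_range.2 (by omega)), by omega, b2, b2 ▸ card_le_card fun z hz =>
      mem_inter.2 ⟨(mem_inter.1 hz).1, by_contra fun b6 => ?_⟩⟩
    have := mem_Ico.1 (b3 (mem_sdiff.2 ⟨(mem_inter.1 hz).1, b6⟩))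
    have := mem_range.1 (mem_inter.1 hz).2
    omega
  have l2 : ∀ F ∈ up n (t + j + 1 + 1 + (f + 1)) N (t + j + 1 + 1) x j, F ⊆ range n ∧ F.card = k ∧
      (F ∩ range N).card = t + j + 1 + 1 ∧ x ≤ (F ∩ range x).card + j := fun F hF => by
    obtain ⟨b1, b2⟩ := mem_filter.1 hF
    obtain ⟨b3, b4, b5⟩ := mem_lev.1 b1
    exact ⟨b3, by omega, b5, b2⟩
  obtain ⟨𝓕, f1, f2⟩ := exists_subset_card_eq (s := up n (t + j + 1 + 1 + (f + 1)) N
      (t + j + 1 + 1) x j ∪ lo x (t + j + 1) N (N + Q) (f + 1 + 1)) (n := m) (by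
    rw [card_union_of_disjoint (disjoint_left.2 fun F b1 b2 => by
      have := (l2 F b1).2.2.1
      have := (l1 F b2).2.2.2
      omega), k3, card_lo hxN]
    omega)
  have f3 : Adm n k (t + 1) m 𝓕 := by
    refine ⟨fun F hF => mem_powersetCard.2 ?_, fun F hF F' hF' => ?_, f2⟩
    · rcases mem_union.1 (f1 hF) with b | b
      · exact ⟨(l2 F b).1, (l2 F b).2.1⟩
      · exact ⟨(l1 F b).1, (l1 F b).2.1⟩
    · have b1 := inter_ge F F' N
      have b2 := inter_ge F F' x
      rcases mem_union.1 (f1 hF) with b | b <;> rcases mem_union.1 (f1 hF') with b' | b'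
      · have := (l2 F b).2.2.1
        have := (l2 F' b').2.2.1
        omega
      · have := (l2 F b).2.2.2
        have := (l1 F' b').2.2.1
        omega
      · have := (l1 F b).2.2.1
        have := (l2 F' b').2.2.2
        omega
      · have := (l1 F b).2.2.1
        have := (l1 F' b').2.2.1
        omega
  have f4 : (shadow 𝓕).card ≤ κ' * q.choose (f + 1) +
      (Hull.big n (t + j + 1 + (f + 1)) N (t + j + 1 + 1)).card +
      (x.choose (t + j) * Q.choose (f + 1 + 1) + x.choose (t + j + 1) * Q.choose (f + 1)) := by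
    rw [← k4, ← card_lo (N := N) hxN, ← card_lo (N := N) hxN]
    refine le_trans (card_le_card fun Y hY => ?_) ((card_union_le _ _).trans
      (Nat.add_le_add (card_union_le _ _) (card_union_le _ _)))
    obtain ⟨F, hF, z, hz, rfl⟩ := mem_shadow_iff.1 hY
    rcases mem_union.1 (f1 hF) with b | b
    · rw [show t + j + 1 + 1 + (f + 1) = t + j + 1 + (f + 1) + 1 by ring] at b
      exact mem_union_left _ (shadow_up (erase_mem_shadow b hz))
    · exact mem_union_right _ (shadow_lo (erase_mem_shadow b hz))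
  have f5 := dcl (colexInit (frankl n k (t + 1) j) m) (shadow (colexInit (frankl n k (t + 1) j) m))
    (range (t + 1 + 2 * j)) (t + 1 + j) (fun W hW => (mem_frankl.1 (mem_colexInit.1 hW).1).2.2)
    fun W hW z hz _ => erase_mem_shadow hW hz
  rw [card_colexInit hhi, card_range, show t + 1 + 2 * j + 1 - (t + 1 + j) = j + 1 by omega] at f5
  have f6 := Nat.choose_succ_right_eq x (t + j)
  rw [show x - (t + j) = a + 1 by omega] at f6
  have f7 : K * ((t + 1 + j + f + 2 + 1) * 2 ^ N * n ^ f) ≤ A := by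
    rw [← mul_assoc]
    exact ((Nat.mul_le_mul_right _ (Nat.le_add_right _ _)).trans a1).trans A1
  refine (Hull.minShadow_le f3).trans_lt (hyb_num (v := w + 1) (K := K) (by omega) (by omega) m1 (by omega)
    (by omega) A2 hΓ g2 s5 hy f4 ?_ Q6 (by linarith) ((Nat.mul_le_mul_left _ (hk ▸ s1)).trans f7)
    ((Nat.mul_le_mul_left _ (s2.trans ?_)).trans f7) f5 (lt_of_le_of_lt ?_ hK))
  · have := congrArg (· * Q.choose (f + 1 + 1)) f6
    linarith
  · exact Nat.mul_le_mul_right _ (Nat.mul_le_mul_right _ (by omega))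
  · exact Nat.mul_le_mul_left _
      (Nat.add_le_add (Nat.add_le_add_right g3 _) (Nat.mul_le_mul_left _ g3))

end Pool.Agent.P.MP_ed1e41_co.XL
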