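import Pool.Agent.P.MP_ed1e41_co.XL.F

/-! Lines of rational slope: the case `j ≤ 4`. -/

namespace Pool.Agent.P.MP_ed1e41_co.XL

open Finset Pool.Agent.P.MP_ed1e41_co.AS

/-- The point with `x` elements and `h` holes lies below the line of slope `β / α`. -/
def ln (t j α β x h : ℕ) : Bool := Nat.blt j h || Nat.ble (α * (x + 1)) (β * (t + h) + α * t)

/-- The number of walks that stay below the line. -/
def wk (t j α β : ℕ) : ℕ → ℕ → ℕ
  | 0, x => bif Nat.beq x 0 && ln t j α β 0 0 then 1 else 0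
  | p + 1, x => bif Nat.ble x (p + 1) && ln t j α β x (p + 1 - x) then
      wk t j α β p x + (bif Nat.beq x 0 then 0 else wk t j α β p (x - 1)) else 0

/-- The check of a chain of lines, for `M` heads. -/
def chk (t j M : ℕ) : List (ℕ × ℕ) → ℕ → ℕ → Bool
  | [], a, b => Nat.ble (a * j) (b * (t + j))
  | (α, β) :: l, a, b => Nat.ble 1 α && Nat.ble ((t + (j + 1)) * β) (α * (j + 2)) &&
      Nat.blt ((j + 1) * M * (j + 2) * (α + 5 * β)) (10 ^ 7) &&
      Nat.blt ((t + j) * β * (j + 2) * M + (t + (j + 1)) * β * (j + 1) *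
          wk t j a b (t + 2 * (j + 1)) (t + (j + 1)))
        (α * (j + 2) * (j + 1) * wk t j a b (t + 2 * (j + 1)) (t + (j + 1)) +
          (t + (j + 1)) * β * (j + 1) * M) && chk t j M l α β

/-- The whole walk of `G` up to `p` stays below the line. -/
def Bl (t j α β p : ℕ) (G : Finset ℕ) : Prop :=
  ∀ q, q ≤ p → ln t j α β (G ∩ range q).card (q - (G ∩ range q).card) = true

lemma ln_iff {t j α β x h : ℕ} :
    ln t j α β x h = true ↔ j < h ∨ α * (x + 1) ≤ β * (t + h) + α * t := by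
  rw [ln, Bool.or_eq_true, Nat.blt_eq, Nat.ble_eq]

open scoped Classical

lemma wk_le (t j α β p : ℕ) : ∀ x, wk t j α β p x ≤
    (((range p).powersetCard x).filter (Bl t j α β p)).card := by
  induction p with
  | zero =>
    intro x
    rw [wk]
    cases h : Nat.beq x 0 && ln t j α β 0 0
    · exact Nat.zero_le _
    · rw [Bool.and_eq_true, Nat.beq_eq] at h
      refine card_pos.2 ⟨∅, mem_filter.2 ⟨by simp [h.1], fun q hq => ?_⟩⟩
      obtain rfl : q = 0 := by omega
      simpa using h.2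
  | succ p ih =>
    intro x
    rw [wk]
    cases h : Nat.ble x (p + 1) && ln t j α β x (p + 1 - x)
    · exact Nat.zero_le _
    rw [Bool.and_eq_true] at h
    have h2 := h.2
    rw [cond_true, ← card_filter_add_card_filter_not (fun G => p ∉ G)]
    refine Nat.add_le_add ((ih x).trans (card_le_card fun G hG => ?_)) ?_
    · obtain ⟨a1, a2⟩ := mem_filter.1 hG
      obtain ⟨a3, a4⟩ := mem_powersetCard.1 a1
      have a5 : G ⊆ range (p + 1) := a3.trans (range_subset_range.2 (Nat.le_succ p))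
      refine mem_filter.2 ⟨mem_filter.2 ⟨mem_powersetCard.2 ⟨a5, a4⟩, fun q hq => ?_⟩,
        fun a6 => lt_irrefl _ (mem_range.1 (a3 a6))⟩
      rcases hq.eq_or_lt with rfl | hq
      · rwa [inter_eq_left.2 a5, a4]
      · exact a2 q (by omega)
    cases hx : Nat.beq x 0
    swap
    · exact Nat.zero_le _
    have hx' : x ≠ 0 := Nat.ne_of_beq_eq_false hx
    rw [cond_false]
    refine (ih (x - 1)).trans (card_le_card_of_injOn (fun G => insert p G) (fun G hG => ?_)
      fun G hG G' hG' e => ?_)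
    · obtain ⟨a1, a2⟩ := mem_filter.1 (mem_coe.1 hG)
      obtain ⟨a3, a4⟩ := mem_powersetCard.1 a1
      have a5 : p ∉ G := fun a6 => lt_irrefl _ (mem_range.1 (a3 a6))
      have a6 : insert p G ⊆ range (p + 1) := by
        rw [range_add_one]
        exact insert_subset_insert _ a3
      have a7 : (insert p G).card = x := by
        rw [card_insert_of_notMem a5]
        omega
      refine mem_coe.2 (mem_filter.2 ⟨mem_filter.2 ⟨mem_powersetCard.2 ⟨a6, a7⟩, fun q hq => ?_⟩,
        not_not.2 (mem_insert_self _ _)⟩)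
      rcases hq.eq_or_lt with rfl | hq
      · rwa [inter_eq_left.2 a6, a7]
      · rw [insert_inter_of_notMem fun a8 => by
          have := mem_range.1 a8
          omega]
        exact a2 q (by omega)
    · have a1 : p ∉ G := fun a6 => lt_irrefl _
        (mem_range.1 ((mem_powersetCard.1 (mem_filter.1 (mem_coe.1 hG)).1).1 a6))
      have a2 : p ∉ G' := fun a6 => lt_irrefl _
        (mem_range.1 ((mem_powersetCard.1 (mem_filter.1 (mem_coe.1 hG')).1).1 a6))
      have e' : insert p G = insert p G' := e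
      rw [← erase_insert a1, e', erase_insert a2]

/-- Sets that reach a line of slope `α / β` have many neighbours below. -/
lemma line_pay (α β : ℕ) (hα : 1 ≤ α) (P : ℕ) : ∀ 𝒜 𝒮 : Finset (Finset ℕ),
    (∀ W ∈ 𝒜, ∃ p, p ≤ P ∧ α * (p + 1) ≤ (α + β) * (W ∩ range p).card) →
    (∀ W ∈ 𝒜, ∀ z ∈ W, z < P → W.erase z ∈ 𝒮) → 𝒜.card * α ≤ 𝒮.card * β := by
  induction P with
  | zero =>
    intro 𝒜 𝒮 h1 _
    rw [eq_empty_of_forall_notMem (s := 𝒜) fun W hW => by
      obtain ⟨p, h, h'⟩ := h1 W hW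
      obtain rfl : p = 0 := by omega
      rw [range_zero, inter_empty, card_empty] at h'
      omega, card_empty, zero_mul]
    exact Nat.zero_le _
  | succ P ih =>
    intro 𝒜 𝒮 h1 h2
    have hex : ∃ a, α * (P + 1 + 1) ≤ (α + β) * a :=
      ⟨P + 1 + 1, Nat.mul_le_mul_right _ (Nat.le_add_right _ _)⟩
    obtain ⟨a, ha, hmin⟩ : ∃ a, α * (P + 1 + 1) ≤ (α + β) * a ∧
        ∀ x, α * (P + 1 + 1) ≤ (α + β) * x → a ≤ x :=
      ⟨_, Nat.find_spec hex, fun x hx => Nat.find_min' hex hx⟩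
    have a0 := card_filter_add_card_filter_not (s := 𝒜) fun W => a ≤ (W ∩ range (P + 1)).card
    have a1 := card_filter_add_card_filter_not (s := 𝒮)
      fun G => a ≤ (G ∩ range (P + 1)).card + 1
    have b1 := dcl (𝒜.filter fun W => a ≤ (W ∩ range (P + 1)).card)
      (𝒮.filter fun G => a ≤ (G ∩ range (P + 1)).card + 1) (range (P + 1)) a
      (fun W hW => (mem_filter.1 hW).2) fun W hW z hz h => by
        rw [mem_range] at h
        have := card_erase_tr hz h
        have := (mem_filter.1 hW).2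
        exact mem_filter.2 ⟨h2 W (mem_filter.1 hW).1 z hz h, by omega⟩
    have b2 := ih (𝒜.filter fun W => ¬ a ≤ (W ∩ range (P + 1)).card)
      (𝒮.filter fun G => ¬ a ≤ (G ∩ range (P + 1)).card + 1) (fun W hW => by
        obtain ⟨p, c1, c2⟩ := h1 W (mem_filter.1 hW).1
        refine ⟨p, Nat.le_of_lt_succ (lt_of_le_of_ne c1 fun e => (mem_filter.1 hW).2 ?_), c2⟩
        subst e
        exact hmin _ c2)
      fun W hW z hz h => by
        have := card_erase_tr hz (show z < P + 1 by omega)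
        have := (mem_filter.1 hW).2
        exact mem_filter.2 ⟨h2 W (mem_filter.1 hW).1 z hz (by omega), by omega⟩
    have b3 := hmin _ (Nat.mul_le_mul_right (P + 1 + 1) (Nat.le_add_right α β))
    obtain ⟨r, hr⟩ := Nat.exists_eq_add_of_le b3
    rw [card_range, hr, Nat.add_sub_cancel_left] at b1
    rw [hr] at ha
    have b4 : 0 < a := Nat.pos_of_ne_zero (by rintro rfl; nlinarith)
    have b5 : (𝒜.filter fun W => a ≤ (W ∩ range (P + 1)).card).card * α ≤
        (𝒮.filter fun G => a ≤ (G ∩ range (P + 1)).card + 1).card * β := by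
      refine Nat.le_of_mul_le_mul_right ?_ b4
      have c1 := Nat.mul_le_mul_right α b1
      have c2 := Nat.mul_le_mul_left
        (𝒮.filter fun G => a ≤ (G ∩ range (P + 1)).card + 1).card (show α * r ≤ β * a by linarith)
      linarith
    rw [← a0, ← a1]
    linarith

/-- A far member below the line forces the lower members above the dual line. -/
lemma lam_low {n t d m j α β : ℕ} {𝓕 : Finset (Finset ℕ)} (h : Adm n (t + d) t m 𝓕)
    (hs : Shifted 𝓕) {Y W : Finset ℕ} (hY : Y ∈ 𝓕)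
    (h1 : (Y ∩ range (t + 2 * d)).card ≤ t + (j + 1)) (h2 : Bl t j α β (t + 2 * (j + 1)) Y)
    (hW : W ∈ 𝓕) (hW' : ¬ Hi t j W) :
    ∃ p, p ≤ t + 2 * (j + 1) ∧ α * (p + 1) ≤ (α + β) * (W ∩ range p).card := by
  obtain ⟨p, hp⟩ := frankl_lemma hs h.2.1 hY W hW
  have c1 := card_tr_le' Y p
  have c2 := card_tr_le' W p
  rw [h.card_eq _ hY] at c1
  rw [h.card_eq _ hW] at c2
  have c3 := card_tr_le Y p
  have c5 : (W ∩ range (t + 2 * (j + 1))).card < t + (j + 1) :=
    not_le.1 fun b => hW' ⟨j + 1, by omega, b⟩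
  have c7 := card_tr_mono Y (show p ≤ t + 2 * d by omega)
  rcases le_total (t + 2 * (j + 1)) p with e | e
  · have := tr_step W e
    omega
  have c8 := card_tr_mono W e
  have c9 := ln_iff.1 (h2 p e)
  obtain ⟨g, hg⟩ := Nat.exists_eq_add_of_le c3
  refine ⟨p, e, ?_⟩
  generalize (Y ∩ range p).card = x at *
  generalize (W ∩ range p).card = y at *
  subst hg
  rw [Nat.add_sub_cancel_left] at c9
  have d1 := c9.resolve_left (by omega)
  have d2 := Nat.mul_le_mul_left (α + β) (show t + g ≤ y by omega)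
  linarith

lemma lam_num {s J α β M B κ A K m L N S x y Z U : ℕ} (hm : 1 ≤ m) (h2 : m ≤ L + N + S)
    (h3 : L * α ≤ x * β) (h4 : (s + 1) * N ≤ (J + 1) * y) (h5 : x + y ≤ Z) (h6 : Z < U)
    (h7 : N ≤ κ * A) (h8 : κ + B ≤ M) (h9 : M * A ≤ m) (h10 : K * J * U ≤ K * s * m + 5 * J * m)
    (h11 : K * S ≤ m) (c1 : (s + 1) * β ≤ α * (J + 1))
    (c2 : s * β * (J + 1) * M + (s + 1) * β * J * B < α * (J + 1) * J * B + (s + 1) * β * J * M)
    (hK : J * M * (J + 1) * (α + 5 * β) < K) : False := by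
  obtain ⟨D, hD⟩ := Nat.exists_eq_add_of_le c1
  have a1 := Nat.mul_le_mul_left (J + 1) h3
  have a2 := Nat.mul_le_mul_left β h4
  have a3 := Nat.mul_le_mul_left (β * (J + 1)) h5
  have a4 := Nat.mul_le_mul_left (α * (J + 1)) h2
  have a5 : α * (J + 1) * N = (s + 1) * β * N + D * N := by rw [hD]; ring
  have b1 : α * (J + 1) * m ≤ β * (J + 1) * Z + D * N + α * (J + 1) * S := by linarith
  have b2 : M * N + B * m ≤ M * m := by
    have d1 := Nat.mul_le_mul_left M h7
    have d2 := Nat.mul_le_mul_left κ h9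
    have d3 := Nat.mul_le_mul_right m h8
    linarith
  have b3 := Nat.mul_le_mul_left (M * J) b1
  have b4 := Nat.mul_le_mul_left (J * D) b2
  have b5 := Nat.mul_le_mul_right m (Nat.succ_le_of_lt c2)
  have b6 : M * J * (α * (J + 1) * m) = M * J * ((s + 1) * β) * m + M * J * D * m := by
    rw [hD]; ring
  have b7 : α * (J + 1) * J * B * m = (s + 1) * β * J * B * m + D * J * B * m := by
    rw [hD]; ring
  have b8 : M * β * (J + 1) * s * m + m ≤
      M * β * (J + 1) * (J * Z) + M * J * (J + 1) * α * S := by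
    rw [Nat.succ_eq_add_one] at b5
    linarith
  have d1 := Nat.mul_le_mul_left K b8
  have d2 := Nat.mul_le_mul_left (M * β * (J + 1)) ((Nat.mul_le_mul_left (K * J) h6.le).trans h10)
  have d3 := Nat.mul_le_mul_left (M * J * (J + 1) * α) h11
  have d4 := Nat.mul_lt_mul_of_lt_of_le hK (le_refl m) hm
  linarith

lemma lam_chain {n t d m j e q K U : ℕ} {𝓕 : Finset (Finset ℕ)} (hS : St n t d j m e q)
    (h : Adm n (t + d) t m 𝓕) (hs : Shifted 𝓕) (hZ : (shadow 𝓕).card < U)
    (hU : K * (j + 1) * U ≤ K * (t + j) * m + 5 * (j + 1) * m) (hs' : K * (sm n t d j).card ≤ m)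
    (hK : 10 ^ 7 ≤ K) (l : List (ℕ × ℕ)) : ∀ a b,
    chk t j ((t + 2 * (j + 1)).choose (j + 1)) l a b = true →
    (∀ Y ∈ fc t d j 𝓕, ¬ Bl t j a b (t + 2 * (j + 1)) Y) →
    ∀ Y ∈ fc t d j 𝓕, ∃ c, c ≤ j ∧ t + c ≤ (Y ∩ range (t + 2 * c)).card := by
  have hd := hS.hd
  have hn := hS.hn
  have e1 := hS.e1
  have hq := hS.hq
  have hlo := hS.lo
  have t1 := hS.t1
  induction l with
  | nil =>
    intro a b hc hF Y hY
    rw [chk, Nat.ble_eq] at hc
    by_contra hn'
    refine hF Y hY fun p _ => ln_iff.2 ?_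
    have c1 := card_tr_le Y p
    obtain ⟨g, hg⟩ := Nat.exists_eq_add_of_le c1
    rw [show p - (Y ∩ range p).card = g by omega]
    refine (lt_or_ge j g).imp_right fun c2 => ?_
    have c3 : (Y ∩ range p).card < t + g := not_le.1 fun c3 => hn' ⟨g, c2, by
      have := tr_step Y (show t + 2 * g ≤ p by omega)
      omega⟩
    have c4 : a * g ≤ b * (t + g) := by
      rcases Nat.eq_zero_or_pos g with rfl | c4
      · exact Nat.zero_le _
      refine Nat.le_of_mul_le_mul_right ?_ (show 0 < j by omega)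
      have c5 := Nat.mul_le_mul_right g hc
      have c6 := Nat.mul_le_mul_left (b * t) c2
      linarith
    have c5 := Nat.mul_le_mul_left a (Nat.succ_le_of_lt c3)
    rw [Nat.succ_eq_add_one] at c5
    linarith
  | cons αβ l ih =>
    obtain ⟨α, β⟩ := αβ
    intro a b hc hF
    simp only [chk, Bool.and_eq_true, Nat.ble_eq, Nat.blt_eq] at hc
    obtain ⟨⟨⟨⟨c1, c2⟩, c3⟩, c4⟩, c5⟩ := hc
    refine ih α β c5 fun Y hY hY' => ?_
    obtain ⟨L, x, a1, a2, a3, a4⟩ := comb (α := α) (β := β)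
      (𝓗 := ((range (t + 2 * (j + 1))).powersetCard (t + (j + 1))).filter fun H =>
        ¬ Bl t j a b (t + 2 * (j + 1)) H) hS h hs
      (fun 𝒮 h𝒮 => line_pay α β c1 _ _ 𝒮 (fun W hW => lam_low h hs
        (mem_cls.1 (mem_filter.1 hY).1).1 (mem_filter.1 hY).2 hY' (mem_filter.1 hW).1
        (mem_filter.1 hW).2) h𝒮) fun F hF' => by
        refine mem_filter.2 ⟨mem_powersetCard.2 ⟨inter_subset_right,
          (mem_cls.1 (mem_filter.1 hF').1).2.2.1⟩, fun b1 => hF F hF' fun p hp => ?_⟩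
        have b2 := b1 p hp
        rwa [inter_assoc, (inter_eq_right (s := range _)).2 (range_subset_range.2 hp)] at b2
    have a5 := card_filter_add_card_filter_not
      (s := (range (t + 2 * (j + 1))).powersetCard (t + (j + 1))) (Bl t j a b (t + 2 * (j + 1)))
    rw [card_powersetCard, card_range, cc_symm] at a5
    have a6 := wk_le t j a b (t + 2 * (j + 1)) (t + (j + 1))
    have a7 := ble (n := n) (t := t) (d := d) (i := j + 1) (e := e - 1) (q := q - 2)
      (by omega) (by omega)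
    have a8 : (t + (j + 1)) * (fc t d j 𝓕).card ≤ (j + 1 + 1) * (hsh t d (j + 1) 𝓕).card :=
      (Nat.mul_le_mul_left _ (card_filter_le _ _)).trans
        (Nat.le_of_mul_le_mul_left (le_trans (Nat.le_add_right _ _) (a_CELLN t d (j + 1) 𝓕))
          (Nat.choose_pos (by omega)))
    exact lam_num (s := t + j) (J := j + 1) (by omega) a1 a2 a8 a3 hZ a4 (by omega)
      (a7.trans hlo.le) hU hs' c2 c4 (c3.trans_le hK)

/-- The chains of lines for the ten small pairs. -/
def cert : ℕ → ℕ → List (ℕ × ℕ)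
  | 2, 2 => [(3, 1), (2, 1)]
  | 2, 3 => [(4, 1), (5, 2), (5, 3)]
  | 3, 3 => [(4, 1), (5, 2), (2, 1)]
  | 4, 3 => [(4, 1), (3, 1), (7, 3)]
  | 2, 4 => [(6, 1), (4, 1), (3, 1), (2, 1), (3, 2)]
  | 3, 4 => [(6, 1), (7, 2), (7, 3), (2, 1), (7, 4)]
  | 4, 4 => [(6, 1), (7, 2), (5, 2), (7, 3), (2, 1)]
  | 5, 4 => [(5, 1), (7, 2), (8, 3), (9, 4)]
  | 6, 4 => [(5, 1), (3, 1), (5, 2)]
  | 7, 4 => [(5, 1), (3, 1), (11, 4)]
  | _, _ => []

lemma cert_ok : ∀ j, j ≤ 4 → ∀ t, t ≤ 28 → 2 ≤ t →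
    chk t j ((t + 2 * (j + 1)).choose (j + 1)) (cert t j) 1 0 = true ∨ ∀ u, u ≤ j → 1 ≤ u →
      ((t + j) * (j + 2) * (j + 1 - u) + u * (t - 1)) * ((t + 2 * j + 2).choose (j + 1) -
        ((t + j + u - 1).choose (j + 1) - (t + j + u - 1).choose (j - 1))) ≤
      (t + j) * (j + 2) * (j + 1 - u) * (t + 2 * j + 2).choose (j + 1) := by
  simp only [Nat.choose_eq_descFactorial_div_factorial]
  decide +kernel

/-- The case `j ≤ 4`, for every `t ≥ 2`. -/
lemma small_j {n t d m j e q K U : ℕ} {𝓕 : Finset (Finset ℕ)} (hS : St n t d j m e q)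
    (h : Adm n (t + d) t m 𝓕) (hs : Shifted 𝓕) (ht : 2 ≤ t) (hj : j ≤ 4)
    (hZ : (shadow 𝓕).card < U)
    (hU : K * (j + 1) * U ≤ K * (t + j) * m + 5 * (j + 1) * m) (hs' : K * (sm n t d j).card ≤ m)
    (hK : (2 * (d - j) + 1) * (10 * (t + 2 * j).choose j * (j + 1) +
      2 * (t + 2 * j).choose j * (t + j) + 1) < K)
    (hK1 : (t + 2 * (j + 1)).choose (j + 1) * (j + 1) * (j + 2) * (5 * j + t) < K)
    (hK2 : (t + j) * (j + 2) * (j + 1) *
      ((t + 2 * (j + 1)).choose (j + 1) * (j + 2) * (j + 1) * (6 * j + t)) < K)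
    (hK3 : 10 ^ 7 ≤ K) : 𝓕 ⊆ frankl n (t + d) t j := by
  have hd := hS.hd
  have e1 := hS.e1
  have hlo := hS.lo
  rcases lt_or_ge 28 t with h1 | h1
  · exact big_t hS h hs (by nlinarith) hZ hU hs' hK hK1
  rcases cert_ok j hj t h1 ht with h2 | h2
  · refine beta hS.t1 (by omega) h hs (by omega) (Or.inl ht) (fun W hW => ?_) hZ hU hs' hK
    obtain ⟨c, c1, c2⟩ := lam_chain hS h hs hZ hU hs' hK3 _ 1 0 h2 (fun Y hY hY' => by
      refine no_far hS h hs (mem_cls.1 (mem_filter.1 hY).1).1 (mem_filter.1 hY).2 ?_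
      have b1 := ln_iff.1 (hY' (t + j) (by omega))
      have b2 := card_tr_le Y (t + j)
      omega) W hW
    rcases c1.eq_or_lt with rfl | c1
    · exact Or.inl c2
    · exact Or.inr ⟨ht, c, c1, c2⟩
  · exact q_chain hS h hs ht (fun u u1 u2 => Nat.mul_le_mul (h2 u u2 u1) hlo.le) hZ hU hs' hK hK2

end Pool.Agent.P.MP_ed1e41_co.XL
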